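import Pool.Agent.H.MP_83e36b_nt.tn.SDef
import Pool.Agent.H.MP_83e36b_nt.hm.ExN
import Pool.Agent.H.MP_83e36b_nt.td.Blk

/-! The existence of a global form with given local classes. -/

set_option autoImplicit false

open Matrix SpinWA DC83 NumberField IsDedekindDomain WA83

namespace NF83

theorem QExP_map {k K : Type*} [Field k] [Field K] (φ : k →+* K) (h2 : (2 : K) ≠ 0) {n : ℕ}
    {J : Matrix (Fin n) (Fin n) k} {d : Fin n → k} (hd : ∀ i, d i ≠ 0) (hJ : Cong J (diagonal d)) :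
    cls (J.map φ) = ∑ i, cl (φ (d i)) := by
  have h1 := hJ.map φ
  rw [Matrix.diagonal_map (map_zero φ)] at h1
  exact cls_eq_sum h2 (fun i => (map_ne_zero φ).2 (hd i)) h1

/-- the local form in `n` variables -/
theorem QExP_loc {k K : Type*} [Field k] [Field K] (φ : k →+* K) (h2 : (2 : K) ≠ 0) {n m : ℕ}
    {J : Matrix (Fin (n + m)) (Fin (n + m)) k} {H : Matrix (Fin m) (Fin m) k} {d : Fin (n + m) → k}
    {e : Fin m → k} (hd : ∀ i, d i ≠ 0) (he : ∀ i, e i ≠ 0) (hJ : Cong J (diagonal d))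
    (hH : Cong H (diagonal e))
    (hQ : ∃ Q : Matrix (Fin n) (Fin n) K, Qᵀ = Q ∧ Q.det ≠ 0 ∧
      cls Q + cls (H.map φ) = cls (J.map φ)) :
    ∃ f : Fin n → K, (∀ i, f i ≠ 0) ∧
      ∑ i, cl (φ (d i)) + ∑ i, cl (φ (-e i)) = ∑ i, cl (f i) := by
  obtain ⟨Q, hQt, hQd, hQc⟩ := hQ
  obtain ⟨f, hf, hQf⟩ := exists_diag h2 hQt hQd
  refine ⟨f, hf, ?_⟩
  rw [cls_eq_sum h2 hf hQf, QExP_map φ h2 hd hJ, QExP_map φ h2 he hH] at hQc
  have hneg : ∑ i, cl (φ (e i)) + ∑ i, cl (φ (-e i)) = 0 := by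
    rw [← Finset.sum_add_distrib]
    refine Finset.sum_eq_zero fun i _ => ?_
    rw [map_neg]
    exact cl_neg h2 _
  rw [← hQc, add_assoc, hneg, add_zero]

/-- the difference of two diagonal forms -/
theorem QExP_diff {k : Type*} [Field k] {n m : ℕ} {d : Fin (n + m) → k} {e : Fin m → k}
    (hd : ∀ i, d i ≠ 0) (he : ∀ i, e i ≠ 0) :
    ∃ d1 : Fin (n + 2 * m) → k, (∀ i, d1 i ≠ 0) ∧ ∀ {K : Type*} [Field K] (φ : k →+* K),
      ∑ i, cl (φ (d1 i)) = ∑ i, cl (φ (d i)) + ∑ i, cl (φ (-e i)) := by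
  have hcast : n + 2 * m = n + m + m := by omega
  refine ⟨fun i => Fin.append d (fun j => -e j) (Fin.cast hcast i), ?_, ?_⟩
  · intro i
    show Fin.append d (fun j => -e j) (Fin.cast hcast i) ≠ 0
    generalize Fin.cast hcast i = k
    refine Fin.addCases (fun k => ?_) (fun k => ?_) k
    · rw [Fin.append_left]
      exact hd k
    · rw [Fin.append_right]
      exact neg_ne_zero.2 (he k)
  · intro K _ φ
    have h3 : ∑ i, cl (φ (Fin.append d (fun j => -e j) (Fin.cast hcast i))) =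
        ∑ k : Fin (n + m + m), cl (φ (Fin.append d (fun j => -e j) k)) :=
      Equiv.sum_comp (finCongr hcast) fun k => cl (φ (Fin.append d (fun j => -e j) k))
    rw [h3, Fin.sum_univ_add]
    congr 1
    · exact Finset.sum_congr rfl fun i _ => by rw [Fin.append_left]
    · exact Finset.sum_congr rfl fun i _ => by rw [Fin.append_right]

variable {k : Type} [Field k] [NumberField k]

/-- Proof: `exists_diag`, `cls_eq_sum` for `J` and `H`: `cls J = ∑ cl (a i)`, `cls H = ∑ cl (b i)`;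
`d = (a, -b) : Fin (n + 2 m) → k` (as in `loc_ex` of td/LocEx.lean); the local forms; `exN`;
`Q = diagonal d'`. -/
theorem q_ex (hHM : HMiso k) (T : Finset (HeightOneSpectrum (𝓞 k))) : @QEx k _ (plSys k T) := by
  letI iP : PlSys k := plSys k T
  intro n m hn J H hJ hJd hH hHd hloc
  have h2 : (2 : k) ≠ 0 := two_ne_zero
  obtain ⟨d, hd, hJc⟩ := exists_diag h2 hJ hJd
  obtain ⟨e, he, hHc⟩ := exists_diag h2 hH hHd
  obtain ⟨d1, hd1, hs⟩ := QExP_diff hd he
  have hall : ∀ v : Pk k, ∃ f : Fin n → Cp v, (∀ i, f i ≠ 0) ∧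
      WG.map (em v) (∑ i, cl (d1 i)) = ∑ i, cl (f i) := by
    intro v
    have h2v : (2 : Cp v) ≠ 0 := by
      have h3 := (map_ne_zero (em v)).2 h2
      rwa [map_ofNat] at h3
    have h4 : WG.map (em v) (∑ i, cl (d1 i)) = ∑ i, cl (em v (d1 i)) := by
      rw [map_sum]
      exact Finset.sum_congr rfl fun i _ => WG.map_cl (em v) (d1 i)
    rw [h4, hs (em v)]
    exact QExP_loc (em v) h2v hd he hJc hHc (hloc v)
  obtain ⟨d', hd', hs'⟩ := exN hHM T n m hn d1 hd1 hall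
  refine ⟨diagonal d', Matrix.diagonal_transpose _, ?_, ?_⟩
  · rw [Matrix.det_diagonal]
    exact Finset.prod_ne_zero_iff.2 fun i _ => hd' i
  · have h3 := hs (RingHom.id k)
    simp only [RingHom.id_apply] at h3
    have hneg : ∑ i, cl (-e i) + ∑ i, cl (e i) = 0 := by
      rw [← Finset.sum_add_distrib]
      refine Finset.sum_eq_zero fun i _ => ?_
      rw [add_comm]
      exact cl_neg h2 _
    rw [cls_diagonal h2 hd', cls_eq_sum h2 he hHc, cls_eq_sum h2 hd hJc, ← hs', h3, add_assoc,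
      hneg, add_zero]

end NF83
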