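import Pool.Agent.H.MP_83e36b_nt.tn.FinN
import Pool.Agent.H.MP_83e36b_nt.tn.QExP
import Pool.Agent.H.MP_83e36b_nt.hm.StQ
import Pool.Agent.H.MP_83e36b_nt.hm.MBr

/-! The main theorem. -/

set_option autoImplicit false

open NumberField IsDedekindDomain

namespace NF83

open CM83 NR83 WA83 DC83

/-- Main theorem. -/
theorem main_utower {k : Type} [Field k] [NumberField k] {K : Type} [Field K] [Algebra k K]
    {G : Type} [Group G] [Finite G] (α : G →* (K ≃ₐ[k] K)) (hfix : fixF α = ⊥)
    (hα : UTower α) : WAFinFor α :=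
  main_utower_of (fun T _ _ hm he _ hQ hd => star_nf (hMiso_nf k) T hm he hQ hd)
    (fun T => q_ex (hMiso_nf k) T) α hfix hα

end NF83
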