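import Pool.Agent.H.MP_83e36b_nt.tn.ZU
import Pool.Agent.H.MP_83e36b_nt.sp.XLoc

/-! Weak approximation at all places for the variety of trace forms; as rg/XG.lean. -/

set_option autoImplicit false

open Topology Matrix Polynomial SpinWA

namespace NF83

private theorem XU_box {α β γ : Type*} [TopologicalSpace α] [TopologicalSpace β]
    [TopologicalSpace γ] {p : α × β × γ → Prop} {a : α} {b : β} {c : γ}
    (h : ∀ᶠ q in 𝓝 (a, b, c), p q) :
    ∃ U1 ∈ 𝓝 a, ∃ U2 ∈ 𝓝 b, ∃ U3 ∈ 𝓝 c, ∀ x ∈ U1, ∀ y ∈ U2, ∀ z ∈ U3, p (x, y, z) := by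
  rw [Filter.Eventually, mem_nhds_prod_iff] at h
  obtain ⟨U1, hU1, W, hW, h2⟩ := h
  rw [mem_nhds_prod_iff] at hW
  obtain ⟨U2, hU2, U3, hU3, h3⟩ := hW
  exact ⟨U1, hU1, U2, hU2, U3, hU3, fun x hx y hy z hz =>
    h2 (Set.mk_mem_prod hx (h3 (Set.mk_mem_prod hy hz)))⟩

variable {kk : Type} [Field kk] [CharZero kk] [PlSys kk]

theorem x_waU [Finite (Pk kk)] {m e : ℕ} (he : e ≤ 1)
    {Q : Matrix (Fin (2 * m + e)) (Fin (2 * m + e)) kk} (hQ : Qᵀ = Q) (hd : Q.det ≠ 0)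
    (hR : StarU kk m e Q.det (cls Q))
    (x : ∀ v : Pk kk, (Fin (2 * (m) + e) → Cp v) ×
      Matrix (Fin (2 * (m) + e)) (Fin (2 * (m) + e)) (Cp v))
    (hx : ∀ v, (x v).2ᵀ * Q.map (em v) * (x v).2 = hk (x v).1 ∧ (x v).2.det ≠ 0)
    (U : ∀ v : Pk kk, Set ((Fin (2 * (m) + e) → Cp v) ×
      Matrix (Fin (2 * (m) + e)) (Fin (2 * (m) + e)) (Cp v)))
    (hU : ∀ v, U v ∈ 𝓝 (x v)) :
    ∃ (a : Fin (2 * (m) + e) → kk)
      (B : Matrix (Fin (2 * (m) + e)) (Fin (2 * (m) + e)) kk),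
      Bᵀ * Q * B = hk a ∧ B.det ≠ 0 ∧
      ∀ v, ((fun i => em v (a i)), B.map (em v)) ∈ U v := by
  classical
  have : Fintype (Pk kk) := Fintype.ofFinite _
  have hQv : ∀ v : Pk kk, (Q.map (em v))ᵀ = Q.map (em v) := by
    intro v
    rw [← Matrix.transpose_map, hQ]
  have hdv : ∀ v : Pk kk, (Q.map (em v)).det ≠ 0 := by
    intro v
    have h1 : (Q.map (em v)).det = em v Q.det := by
      rw [RingHom.map_det, RingHom.mapMatrix_apply]
    rw [h1]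
    exact (map_ne_zero (em v)).2 hd
  have hloc := fun v : Pk kk => x_loc (Rat.castHom (Cp v)) he (hQv v) (hdv v) (x v) (hx v).1
    (hx v).2 (hU v)
  choose g y C hC hCd hev using hloc
  have hnb : ∀ v : Pk kk, ∃ U1 ∈ 𝓝 (g v), ∃ U2 ∈ 𝓝 (y v), ∃ U3 ∈ 𝓝 (C v),
      ∀ a ∈ U1, ∀ b ∈ U2, ∀ c ∈ U3, (kryM (xop e a b)).det ≠ 0 ∧
        (cpc (xop e a b), c * kryM (xop e a b)) ∈ U v := by
    intro v
    obtain ⟨U1, hU1, U2, hU2, U3, hU3, h1⟩ := XU_box (hev v)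
    refine ⟨U1, hU1, U2, hU2, U3, hU3, fun a ha b hb c hc => ?_⟩
    have h4 := h1 a ha b hb c hc
    dsimp only at h4
    exact h4
  choose U1 hU1 U2 hU2 U3 hU3 hmem using hnb
  obtain ⟨G, C', hG, hC'd, hGC⟩ := z_waU he hQ hd hR g C hC hCd U1 hU1 U3 hU3
  obtain ⟨y', hy'⟩ := wa_fun (Finset.univ : Finset (Pk kk)) y U2 (fun v _ => hU2 v)
  have hall : ∀ v : Pk kk,
      (kryM ((xop e G y').map (em v))).det ≠ 0 ∧
      (cpc ((xop e G y').map (em v)), C'.map (em v) * kryM ((xop e G y').map (em v))) ∈ U v := by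
    intro v
    have h1 := hmem v _ (hGC v).1 _ (hy' v (Finset.mem_univ v)) _ (hGC v).2
    rw [← xop_map] at h1
    exact h1
  have hX : (kryM (xop e G y')).det ≠ 0 := by
    intro h0
    apply (hall (p0 kk)).1
    rw [← kryM_det_map, h0, map_zero]
  have hgam : (gamM (dbl e G)).det ≠ 0 := by
    rw [← hG, Matrix.det_mul, Matrix.det_mul, Matrix.det_transpose]
    exact mul_ne_zero (mul_ne_zero hC'd hd) hC'd
  have hhk : (hk (dbl e G)).det ≠ 0 := (det_hk_dbl he G).2 hgam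
  refine ⟨cpc (xop e G y'), C' * kryM (xop e G y'), ?_, ?_, ?_⟩
  · rw [← bwd he G y' hhk hX, ← hG, Matrix.transpose_mul]
    simp only [Matrix.mul_assoc]
  · rw [Matrix.det_mul]
    exact mul_ne_zero hC'd hX
  · intro v
    have h1 := (hall v).2
    have e1 : (fun i => em v (cpc (xop e G y') i)) = cpc ((xop e G y').map (em v)) := by
      funext i
      exact cpc_map (em v) _ i
    rw [e1, Matrix.map_mul, kryM_map]
    exact h1

end NF83
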