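import Pool.Agent.H.MP_83e36b_nt.tn.SDef
import Pool.Agent.H.MP_83e36b_nt.hm.KLb
import Pool.Agent.H.MP_83e36b_nt.nf.U5c
import Pool.Agent.H.MP_83e36b_nt.nf.Fin
import Pool.Agent.H.MP_83e36b_nt.td.Blk

/-! The existence of a global form with given local classes, from the Hasse-Minkowski theorem. -/

set_option autoImplicit false

open Matrix SpinWA DC83 NumberField IsDedekindDomain WA83

namespace NF83

/-- Proof: `hu` for the first five entries (see the use of `U5` in hm/KHa.lean or td/Qrt.lean; extend the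
vector by 0). -/
theorem ExQN_u5 {K : Type*} [Field K] (hu : U5 K) {n : ℕ} (hn : 5 ≤ n) {d : Fin n → K}
    (hd : ∀ i, d i ≠ 0) : IsoF d := by
  obtain ⟨m, rfl⟩ : ∃ m, n = 5 + m := ⟨n - 5, by omega⟩
  obtain ⟨x, hx0, hx⟩ := hu (fun i => d (Fin.castAdd m i)) fun i => hd _
  refine ⟨Fin.append x 0, fun h => hx0 ?_, ?_⟩
  · funext i
    have h1 := congrFun h (Fin.castAdd m i)
    rw [Fin.append_left] at h1
    exact h1
  · rw [Fin.sum_univ_add]
    simp only [Fin.append_left, Fin.append_right, Pi.zero_apply]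
    rw [hx]
    simp

private theorem ExQN_alt {K : Type*} [Field K] (M : ℕ) :
    ∑ i : Fin (2 * M), cl ((-1 : K) ^ (i : ℕ)) = 0 := by
  rw [Fin.sum_univ_eq_sum_range (fun i => cl ((-1 : K) ^ i)) (2 * M)]
  induction M with
  | zero => simp
  | succ M ih =>
    rw [show 2 * (M + 1) = 2 * M + 1 + 1 by ring, Finset.sum_range_succ, Finset.sum_range_succ, ih,
      zero_add, pow_succ, pow_mul, neg_one_sq, one_pow, one_mul]
    exact cl_one_neg

/-- Forms with the same class, of dimensions `n` and `n + 2 j`, `j ≥ 1`: the larger one is isotropic.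
Proof: `diag_inj` (sp/WInj.lean) for `d` and `e, 1, -1, 1, -1, ...` (`cl_neg`), the second is isotropic;
`isoF_cong` (hm/KLa.lean). -/
theorem ExQN_iso {K : Type*} [Field K] (h2 : (2 : K) ≠ 0) {n j : ℕ} {d : Fin (n + 2 * (j + 1)) → K}
    (hd : ∀ i, d i ≠ 0) {e : Fin n → K} (he : ∀ i, e i ≠ 0)
    (h : ∑ i, cl (d i) = ∑ i, cl (e i)) : IsoF d := by
  have hcl : ∑ i, cl (Fin.append e (fun i : Fin (2 * (j + 1)) => (-1 : K) ^ (i : ℕ)) i) =
      ∑ i, cl (e i) := by
    rw [Fin.sum_univ_add]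
    simp only [Fin.append_left, Fin.append_right]
    rw [ExQN_alt, add_zero]
  have hne : ∀ i, Fin.append e (fun i : Fin (2 * (j + 1)) => (-1 : K) ^ (i : ℕ)) i ≠ 0 := by
    intro i
    refine Fin.addCases (fun i => ?_) (fun i => ?_) i
    · rw [Fin.append_left]
      exact he i
    · rw [Fin.append_right]
      exact pow_ne_zero _ (neg_ne_zero.2 one_ne_zero)
  refine isoF_cong (diag_inj h2 hd hne (by rw [h, hcl])) ?_
  refine ⟨Fin.append 0 (fun i : Fin (2 * (j + 1)) => if (i : ℕ) < 2 then 1 else 0), fun h0 => ?_, ?_⟩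
  · have h1 := congrFun h0 (Fin.natAdd n ⟨0, by omega⟩)
    rw [Fin.append_right] at h1
    simp at h1
  · rw [Fin.sum_univ_add]
    simp only [Fin.append_left, Fin.append_right, Pi.zero_apply]
    have h3 : ∑ i : Fin (2 * (j + 1)), (-1 : K) ^ (i : ℕ) * (if (i : ℕ) < 2 then (1 : K) else 0) ^ 2 =
        ∑ i ∈ Finset.range (2 * (j + 1)), (-1 : K) ^ i * (if i < 2 then (1 : K) else 0) ^ 2 :=
      Fin.sum_univ_eq_sum_range (fun i => (-1 : K) ^ i * (if i < 2 then (1 : K) else 0) ^ 2) _
    rw [h3, show 2 * (j + 1) = 2 * j + 1 + 1 by ring, Finset.sum_range_succ', Finset.sum_range_succ']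
    simp

variable {k : Type} [Field k] [NumberField k]

private theorem ExQN_two {K L : Type*} [Field K] [CharZero K] [Field L] (φ : K →+* L) :
    (2 : L) ≠ 0 := by
  rw [← map_ofNat φ 2]
  exact (map_ne_zero φ).2 two_ne_zero

/-- Proof: induction on `j`.  `j + 1`: `d` is isotropic at the infinite places by `ExQN_iso`, at the
finite places by `ExQN_u5` and `u5_adic v` (nf/U5c.lean; completeness of `v.adicCompletion k` as in
`locSol_adic` of hm/StQ.lean); `hHM`; `iso_red` (hm/KLa.lean); the class does not change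
(`WG.map (algebraMap ..)` and `WG.map_cl` or so for the infinite places). -/
theorem exists_QN (hHM : HMiso k) {n : ℕ} (hn : 4 ≤ n) (j : ℕ) (d : Fin (n + 2 * j) → k)
    (hd : ∀ i, d i ≠ 0) (hinf : ∀ v : InfinitePlace k, ∃ e : Fin n → v.Completion,
      (∀ i, e i ≠ 0) ∧ ∑ i, cl (algebraMap k v.Completion (d i)) = ∑ i, cl (e i)) :
    ∃ d' : Fin n → k, (∀ i, d' i ≠ 0) ∧ ∑ i, cl (d' i) = ∑ i, cl (d i) := by
  induction j with
  | zero => exact ⟨d, hd, rfl⟩
  | succ j ih =>
    have h1 : IsoF d := by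
      refine hHM (n + 2 * (j + 1)) (by omega) d hd (fun v => ?_) fun v => ?_
      · obtain ⟨e, he, hde⟩ := hinf v
        exact ExQN_iso (ExQN_two (algebraMap k v.Completion)) (fun i => (map_ne_zero _).2 (hd i)) he hde
      · have hcomp : CompleteSpace (v.adicCompletion k) :=
          complete_compl {v} (Sum.inr ⟨v, Finset.mem_singleton_self v⟩)
        exact ExQN_u5 (u5_adic v) (by omega) fun i => (map_ne_zero _).2 (hd i)
    obtain ⟨d', s, hd', hs, hcl, -⟩ := iso_red (n := n + 2 * j) two_ne_zero hd h1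
    have hcl' : ∑ i : Fin (n + 2 * (j + 1)), cl (d i) = ∑ i, cl (d' i) := hcl
    obtain ⟨d'', h3, h4⟩ := ih d' hd' fun v => by
      obtain ⟨e, he, hde⟩ := hinf v
      refine ⟨e, he, ?_⟩
      rw [← hde]
      have h5 := congrArg (WG.map (algebraMap k v.Completion)) hcl'
      rw [map_sum, map_sum] at h5
      simp only [WG.map_cl] at h5
      exact h5.symm
    exact ⟨d'', h3, by rw [h4, hcl']⟩

end NF83
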