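import Pool.Agent.H.MP_83e36b_nt.tn.SDef
import Pool.Agent.H.MP_83e36b_nt.sp.XLoc

/-! The existence of a global quadratic form; as td/ExQ.lean. -/

set_option autoImplicit false

open Matrix SpinWA Topology

namespace NF83

variable {kk : Type} [Field kk] [CharZero kk] [PlSys kk]

/-- A class of the Witt group of `kk` which is at all places of the system the class of a trace form of
degree `n` (and the determinants are right) is the class of a form in `n` variables.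
Proof: as `exists_Q`, `exists_Q'` in td/ExQ.lean, with `StarU` (hm/SU.lean) in place of `zwab_star`
(`U = W = Set.univ`), so without the finite set `S'` and without `hcn`, `hR`: `n = 2 * m + e`; `x_loc`
(sp/XLoc.lean; see the use in rg/XG.lean, there with `Rat.castHom (Cp v)` as the first argument) for
`Q = hk (a v)`, `U = Set.univ` gives `g v`, `C v`; `det_gam`, `cls_gam`, `cls_cong`; `Q = gamM (dbl e G)`. -/
theorem exists_QU (hstar : StarAll kk) {n : ℕ} (hn : 4 ≤ n) (R : WG kk) {c : kk} (hc : c ≠ 0)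
    (a : ∀ v : Pk kk, Fin n → Cp v) (had : ∀ v, (hk (a v)).det ≠ 0)
    (hcl : ∀ v, cls (hk (a v)) = WG.map (em v) R)
    (hdet : ∀ v, ∃ t : Cp v, t ≠ 0 ∧ (hk (a v)).det = em v c * t ^ 2) :
    ∃ Q : Matrix (Fin n) (Fin n) kk, Qᵀ = Q ∧ Q.det ≠ 0 ∧ cls Q = R := by
  classical
  obtain ⟨m, e, he, hm, rfl⟩ : ∃ m e : ℕ, e ≤ 1 ∧ 2 ≤ m ∧ n = 2 * m + e :=
    ⟨n / 2, n % 2, by omega, by omega, by omega⟩
  -- the local points
  have hloc : ∀ v, ∃ (g : Fin m → Cp v)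
      (C : Matrix (Fin (2 * m + e)) (Fin (2 * m + e)) (Cp v)),
      Cᵀ * hk (a v) * C = gamM (dbl e g) ∧ C.det ≠ 0 := by
    intro v
    obtain ⟨g, y, C, hC, hCd, -⟩ := x_loc (Rat.castHom (Cp v)) he (hk_transpose (a v)) (had v)
      ((a v, 1) : (Fin (2 * m + e) → Cp v) × Matrix (Fin (2 * m + e)) (Fin (2 * m + e)) (Cp v))
      (by simp) (by simp) (U := Set.univ) Filter.univ_mem
    exact ⟨g, C, hC, hCd⟩
  choose g C hC hCd using hloc
  choose t₀ ht₀ hdt using hdet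
  have h2 : ∀ v : Pk kk, (2 : Cp v) ≠ 0 := fun v => two_ne_zero
  have hdet : ∀ v, (2 ^ m * (hk (g v)).det * cf (g v) 0 ^ e) ^ 2 * cf (g v) 0 =
      ((C v).det * t₀ v) ^ 2 * em v c := fun v => by
    rw [← det_gam he, ← hC v, Matrix.det_mul, Matrix.det_mul, Matrix.det_transpose, hdt v]
    ring
  have hCt : ∀ v, (C v).det * t₀ v ≠ 0 := fun v => mul_ne_zero (hCd v) (ht₀ v)
  have hne : ∀ v, (2 ^ m * (hk (g v)).det * cf (g v) 0 ^ e) ^ 2 * cf (g v) 0 ≠ 0 := fun v => by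
    rw [hdet]
    exact mul_ne_zero (pow_ne_zero _ (hCt v)) ((_root_.map_ne_zero _).2 hc)
  have hg0 : ∀ v, cf (g v) 0 ≠ 0 := fun v h => hne v (by rw [h, mul_zero])
  have hgd : ∀ v, (hk (g v)).det ≠ 0 := fun v h => hne v (by rw [h]; ring)
  have hD : ∀ v, 2 ^ m * (hk (g v)).det * cf (g v) 0 ^ e ≠ 0 := fun v =>
    mul_ne_zero (mul_ne_zero (pow_ne_zero _ (h2 v)) (hgd v)) (pow_ne_zero _ (hg0 v))
  obtain ⟨τ, hτdef⟩ : ∃ τ : ∀ v, Cp v, ∀ v, τ v = (C v).det * t₀ v /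
    (2 ^ m * (hk (g v)).det * cf (g v) 0 ^ e) := ⟨_, fun v => rfl⟩
  have hτ0 : ∀ v, τ v ≠ 0 := fun v => by
    rw [hτdef]; exact div_ne_zero (hCt v) (hD v)
  have hDτ : ∀ v, 2 ^ m * (hk (g v)).det * cf (g v) 0 ^ e * τ v = (C v).det * t₀ v := fun v => by
    rw [hτdef, mul_comm, div_mul_cancel₀ _ (hD v)]
  have hτ : ∀ v, cf (g v) 0 = em v c * τ v ^ 2 := fun v => by
    have h1 := hdet v
    rw [← hDτ v] at h1
    have h3 : (2 ^ m * (hk (g v)).det * cf (g v) 0 ^ e) ^ 2 ≠ 0 := pow_ne_zero _ (hD v)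
    apply mul_left_cancel₀ h3
    rw [h1]
    ring
  have hcl' : ∀ v, e • cl 1 + cls ((2 : Cp v) • hk (g v)) + cls ((-2 : Cp v) • hk1 (g v)) =
      WG.map (em v) R := fun v => by
    rw [← cls_gam he (g v) (hgd v) (hg0 v), ← hcl v]
    exact (cls_cong (h2 v) (hk_transpose (a v)) (had v) ⟨C v, hCd v, hC v⟩).symm
  obtain ⟨G, t, hGd, ht0, hG0, hGc, -⟩ := hstar m e c R hm he hc g τ hgd hτ0 hτ hcl'
    (fun v => Set.univ) (fun v => Filter.univ_mem) (fun v => Set.univ)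
    (fun v => Filter.univ_mem)
  have hGc0 : cf G 0 ≠ 0 := by
    rw [hG0]; exact mul_ne_zero hc (pow_ne_zero _ ht0)
  refine ⟨gamM (dbl e G), gamM_transpose he G, ?_, ?_⟩
  · rw [det_gam he]
    exact mul_ne_zero (pow_ne_zero _ (mul_ne_zero (mul_ne_zero (pow_ne_zero _ two_ne_zero) hGd)
      (pow_ne_zero _ hGc0))) hGc0
  · rw [cls_gam he G hGd hGc0, hGc]

end NF83
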