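import Pool.Agent.H.MP_83e36b_nt.tn.GlobN
import Pool.Agent.H.MP_83e36b_nt.td.Blk
import Pool.Agent.H.MP_83e36b_nt.sp.CRoot
import Pool.Agent.H.MP_83e36b_nt.dc.Four

/-! The lifting to `2.A_(n+m)` of the Galois representation of a product of two algebras. -/

set_option autoImplicit false

open Matrix Polynomial SpinWA DC83

namespace NF83

private theorem Glo3_hk_map {K L : Type} [Field K] [Field L] {n : ℕ} (φ : K →+* L) (a : Fin n → K) :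
    (hk a).map φ = hk fun i => φ (a i) := by
  ext i j
  simp only [hk, Matrix.map_apply, Matrix.of_apply, croot_psum_map φ]

/-- a reflection of a nondegenerate quadratic form -/
private theorem Glo3_flip {K : Type} [Field K] (h2 : (2 : K) ≠ 0) {n : ℕ} (hn : 1 ≤ n)
    {J : Matrix (Fin n) (Fin n) K} (hJt : Jᵀ = J) (hJ0 : J.det ≠ 0) :
    ∃ D : Matrix (Fin n) (Fin n) K, Dᵀ * J * D = J ∧ D.det = -1 := by
  obtain ⟨d, -, R, hR, hR'⟩ := exists_diag h2 hJt hJ0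
  obtain ⟨E, hE⟩ : ∃ E : Matrix (Fin n) (Fin n) K,
      E = diagonal fun i => if i = (⟨0, hn⟩ : Fin n) then (-1 : K) else 1 := ⟨_, rfl⟩
  have hEd : E.det = -1 := by
    rw [hE, det_diagonal, Finset.prod_ite_eq' Finset.univ (⟨0, hn⟩ : Fin n) fun _ => (-1 : K),
      if_pos (Finset.mem_univ _)]
  have hEJ : Eᵀ * diagonal d * E = diagonal d := by
    rw [hE, diagonal_transpose, diagonal_mul_diagonal, diagonal_mul_diagonal]
    congr 1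
    funext i
    split_ifs <;> ring
  have hRu : IsUnit R.det := isUnit_iff_ne_zero.2 hR
  have hRR : R * R⁻¹ = 1 := mul_nonsing_inv R hRu
  have hRR' : (R⁻¹)ᵀ * Rᵀ = 1 := by rw [← transpose_mul, hRR, transpose_one]
  have hJe : J = (R⁻¹)ᵀ * (Rᵀ * J * R) * R⁻¹ := by
    calc J = ((R⁻¹)ᵀ * Rᵀ) * J * (R * R⁻¹) := by rw [hRR, hRR', Matrix.one_mul, Matrix.mul_one]
      _ = (R⁻¹)ᵀ * (Rᵀ * J * R) * R⁻¹ := by simp only [Matrix.mul_assoc]
  refine ⟨R * E * R⁻¹, ?_, ?_⟩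
  · calc (R * E * R⁻¹)ᵀ * J * (R * E * R⁻¹) = (R⁻¹)ᵀ * (Eᵀ * (Rᵀ * J * R) * E) * R⁻¹ := by
          rw [transpose_mul, transpose_mul]
          simp only [Matrix.mul_assoc]
      _ = (R⁻¹)ᵀ * (Rᵀ * J * R) * R⁻¹ := by rw [hR', hEJ]
      _ = J := hJe.symm
  · have h1 : R.det * R⁻¹.det = 1 := by rw [← det_mul, hRR, det_one]
    rw [det_mul, det_mul, hEd]
    linear_combination - h1

/-- Proof: as `glob2` in td/Glo2.lean: `V = bM (vandermonde z) (vandermonde zF)`,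
`V.map τ = pM (bP (σ τ) (ψ τ)) * V`, `Vᵀ V = bM (hk b) (hk aF)` over `Ω`.  `cls_bM` and `cong_of_cls`:
`Cong J (bM Q (hk aF))`: `P`; `B = P * bM C' 1`; `Bᵀ J B = bM (hk b) (hk aF)`.  Then
`(det V)² = det J (det B)² = (det V₀ det B)²`, so `det V = ± det V₀ det B`; for the sign `-` replace `P`
by `E * P` with `Eᵀ J E = J`, `det E = -1` (`LocBR_flip` in rf/LocBR.lean, copy).  `globN` for `n + m`. -/
theorem glob3 {k : Type} [Field k] [CharZero k] {Ω : Type} [Field Ω] [CharZero Ω]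
    [Algebra k Ω] [IsAlgClosed Ω] [Algebra.IsAlgebraic k Ω] {n m : ℕ} (hn : 2 ≤ n + m)
    {J : Matrix (Fin (n + m)) (Fin (n + m)) k} (hJt : Jᵀ = J) (hJd : J.det ≠ 0)
    {V₀ : Matrix (Fin (n + m)) (Fin (n + m)) Ω} (hV₀ : V₀.det ≠ 0)
    (hV₀J : V₀ᵀ * V₀ = J.map (algebraMap k Ω))
    (x₀ : (Ω ≃ₐ[k] Ω) →* (Matrix (Ix (n + m)) (Ix (n + m)) ℚ)ˣ) (hx₀ : Cts x₀)
    (h₀ : ∀ τ : Ω ≃ₐ[k] Ω, ∃ D : Matrix (Fin (n + m)) (Fin (n + m)) Ω,
      Spn (((x₀ τ : (Matrix (Ix (n + m)) (Ix (n + m)) ℚ)ˣ) :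
        Matrix (Ix (n + m)) (Ix (n + m)) ℚ).map (Rat.castHom Ω)) D ∧ D * V₀.map τ = V₀)
    {Q : Matrix (Fin n) (Fin n) k} (hQ : Qᵀ = Q) (hd : Q.det ≠ 0) {aF : Fin m → k}
    (hcls : cls Q + cls (hk aF) = cls J) {b : Fin n → k}
    {C' : Matrix (Fin n) (Fin n) k} (hC' : C'ᵀ * Q * C' = hk b) (hC'd : C'.det ≠ 0)
    {z : Fin n → Ω} (hz : Function.Injective z)
    (hzb : AnWA.monicPoly (fun i => algebraMap k Ω (b i)) = ∏ i, (X - C (z i)))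
    {zF : Fin m → Ω} (hzF : Function.Injective zF)
    (hzFa : AnWA.monicPoly (fun i => algebraMap k Ω (aF i)) = ∏ i, (X - C (zF i)))
    (σ : (Ω ≃ₐ[k] Ω) →* Equiv.Perm (Fin n)) (hσ : ∀ τ i, τ (z i) = z (σ τ i))
    (ψ : (Ω ≃ₐ[k] Ω) →* Equiv.Perm (Fin m)) (hψ : ∀ τ i, τ (zF i) = zF (ψ τ i)) :
    ∃ ρ : (Ω ≃ₐ[k] Ω) →* dAlt (n + m), Cts ρ ∧ ∀ τ, pi (n + m) (ρ τ) = bP (σ τ) (ψ τ) := by
  have h2 : (2 : k) ≠ 0 := two_ne_zero
  obtain ⟨φ, hφ⟩ : ∃ φ : k →+* Ω, φ = algebraMap k Ω := ⟨_, rfl⟩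
  have hVz : (vandermonde z).det ≠ 0 := det_vandermonde_ne_zero_iff.2 hz
  have hVF : (vandermonde zF).det ≠ 0 := det_vandermonde_ne_zero_iff.2 hzF
  have e1 : (hk b).map φ = (vandermonde z)ᵀ * vandermonde z := by
    rw [hφ, Glo3_hk_map]
    exact (vand_hk z _ hz hzb).symm
  have e2 : (hk aF).map φ = (vandermonde zF)ᵀ * vandermonde zF := by
    rw [hφ, Glo3_hk_map]
    exact (vand_hk zF _ hzF hzFa).symm
  have hdF : (hk aF).det ≠ 0 := by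
    intro h
    have e3 : φ (hk aF).det = (vandermonde zF).det ^ 2 := by
      rw [RingHom.map_det, RingHom.mapMatrix_apply, e2, det_mul, det_transpose, sq]
    rw [h, map_zero] at e3
    exact hVF (pow_eq_zero_iff two_ne_zero |>.1 e3.symm)
  have hbt : (bM Q (hk aF))ᵀ = bM Q (hk aF) := by rw [bM_transpose, hQ, hk_transpose]
  have hbd : (bM Q (hk aF)).det ≠ 0 := by
    rw [bM_det]
    exact mul_ne_zero hd hdF
  obtain ⟨P, _, hP'⟩ := cong_of_cls h2 hJt hJd hbt hbd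
    (by rw [cls_bM h2 hQ hd (hk_transpose aF) hdF, hcls])
  obtain ⟨B, hB⟩ : ∃ B, B = P * bM C' (1 : Matrix (Fin m) (Fin m) k) := ⟨_, rfl⟩
  have hBB : Bᵀ * J * B = bM (hk b) (hk aF) := by
    rw [hB, transpose_mul]
    calc (bM C' 1)ᵀ * Pᵀ * J * (P * bM C' 1)
        = (bM C' 1)ᵀ * (Pᵀ * J * P) * bM C' 1 := by simp only [Matrix.mul_assoc]
      _ = bM (hk b) (hk aF) := by
          rw [hP', bM_transpose, transpose_one, bM_mul, bM_mul, hC', Matrix.one_mul,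
            Matrix.mul_one]
  have hmap : ∀ {l : ℕ} (x : Fin l → Ω) (π : Equiv.Perm (Fin l)) (τ : Ω ≃ₐ[k] Ω),
      (∀ i, τ (x i) = x (π i)) →
      (vandermonde x).map (τ : Ω →+* Ω) = pM Ω π * vandermonde x := by
    intro l x π τ h
    ext i j
    rw [pM_mul_apply, Matrix.map_apply, vandermonde_apply, vandermonde_apply, map_pow]
    have h3 : (τ : Ω →+* Ω) (x i) = τ (x i) := rfl
    rw [h3, h]
  obtain ⟨V, hV⟩ : ∃ V, V = bM (vandermonde z) (vandermonde zF) := ⟨_, rfl⟩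
  have hVd : V.det ≠ 0 := by
    rw [hV, bM_det]
    exact mul_ne_zero hVz hVF
  obtain ⟨θ, hθ⟩ : ∃ θ : (Ω ≃ₐ[k] Ω) →* Equiv.Perm (Fin (n + m)),
      ∀ τ, θ τ = bP (σ τ) (ψ τ) :=
    ⟨MonoidHom.mk' (fun τ => bP (σ τ) (ψ τ)) fun τ τ' => by
      rw [map_mul, map_mul, bP_mul], fun τ => rfl⟩
  have hVτ : ∀ τ : Ω ≃ₐ[k] Ω, V.map τ = pM Ω (θ τ) * V := by
    intro τ
    have h3 : V.map τ = V.map (τ : Ω →+* Ω) := rfl
    rw [h3, hθ, pM_bP, hV, bM_mul, bM_map, hmap z (σ τ) τ (hσ τ), hmap zF (ψ τ) τ (hψ τ)]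
  have hVV : Vᵀ * V = (bM (hk b) (hk aF)).map φ := by
    rw [hV, bM_transpose, bM_mul, bM_map, e1, e2]
  have hBφ : ∀ B' : Matrix (Fin (n + m)) (Fin (n + m)) k, B'ᵀ * J * B' = bM (hk b) (hk aF) →
      (B'.map (algebraMap k Ω))ᵀ * (V₀ᵀ * V₀) * B'.map (algebraMap k Ω) = Vᵀ * V := by
    intro B' hB'
    rw [hVV, ← hB', Matrix.map_mul, Matrix.map_mul, hφ, Matrix.transpose_map, hV₀J]
  have hsq : V.det ^ 2 = (V₀.det * algebraMap k Ω B.det) ^ 2 := by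
    have h5 := congrArg det (hBφ B hBB)
    rw [det_mul, det_mul, det_mul, det_mul, det_transpose, det_transpose, det_transpose] at h5
    have h6 : (B.map (algebraMap k Ω)).det = algebraMap k Ω B.det := by
      rw [RingHom.map_det, RingHom.mapMatrix_apply]
    rw [h6] at h5
    linear_combination -h5
  rcases sq_eq_sq_iff_eq_or_eq_neg.1 hsq with hdet | hdet
  · obtain ⟨ρ, hρ1, hρ2⟩ := globN hn hVd hV₀ θ hVτ x₀ hx₀ h₀ (hBφ B hBB) hdet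
    exact ⟨ρ, hρ1, fun τ => by rw [hρ2, hθ]⟩
  · obtain ⟨D, hDJ, hDd⟩ := Glo3_flip h2 (by omega : 1 ≤ n + m) hJt hJd
    have hDB : (D * B)ᵀ * J * (D * B) = bM (hk b) (hk aF) := by
      calc (D * B)ᵀ * J * (D * B) = Bᵀ * (Dᵀ * J * D) * B := by
            rw [transpose_mul]
            simp only [Matrix.mul_assoc]
        _ = bM (hk b) (hk aF) := by rw [hDJ, hBB]
    have hdet' : V.det = V₀.det * algebraMap k Ω (D * B).det := by
      rw [hdet, det_mul, hDd, neg_one_mul, map_neg]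
      ring
    obtain ⟨ρ, hρ1, hρ2⟩ := globN hn hVd hV₀ θ hVτ x₀ hx₀ h₀ (hBφ (D * B) hDB) hdet'
    exact ⟨ρ, hρ1, fun τ => by rw [hρ2, hθ]⟩

end NF83
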