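import Pool.Agent.H.MP_83e36b_nt.rf.LocPair
import Pool.Agent.H.MP_83e36b_nt.dc.Four

/-! The class of the trace form at a place. -/

set_option autoImplicit false

open Matrix Polynomial SpinWA DC83

namespace NF83

/-- complex conjugation -/
private theorem LocN_conj {K : Type} [Field K] (φ : K ≃+* ℝ) {Ω : Type} [Field Ω] [CharZero Ω]
    [Algebra K Ω] [IsAlgClosed Ω] [Algebra.IsAlgebraic K Ω] :
    ∃ (e : Ω ≃+* ℂ) (c : Ω ≃ₐ[K] Ω), (∀ z, e (c z) = (starRingEnd ℂ) (e z)) ∧ c * c = 1 ∧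
      ∀ a : K, e (algebraMap K Ω a) = algebraMap ℝ ℂ (φ a) := by
  letI : Algebra ℝ Ω := ((algebraMap K Ω).comp (φ.symm : ℝ →+* K)).toAlgebra
  have hmap : ∀ a : K, algebraMap ℝ Ω (φ a) = algebraMap K Ω a := fun a => by
    show algebraMap K Ω (φ.symm (φ a)) = _
    rw [φ.symm_apply_apply]
  have halg : Algebra.IsAlgebraic ℝ Ω := by
    refine ⟨fun z => ?_⟩
    obtain ⟨p, hp, hpz⟩ := Algebra.IsAlgebraic.isAlgebraic (R := K) z
    refine ⟨p.map (φ : K →+* ℝ), ?_, ?_⟩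
    · rw [Ne, Polynomial.map_eq_zero_iff (φ : K →+* ℝ).injective]
      exact hp
    · rw [Polynomial.aeval_def, Polynomial.eval₂_map]
      have h1 : (algebraMap ℝ Ω).comp (φ : K →+* ℝ) = algebraMap K Ω := RingHom.ext hmap
      rw [h1]
      exact hpz
  have hac : IsAlgClosure ℝ Ω := ⟨inferInstance, inferInstance⟩
  have hac' : IsAlgClosure ℝ ℂ := ⟨inferInstance, inferInstance⟩
  obtain ⟨e⟩ : Nonempty (Ω ≃ₐ[ℝ] ℂ) := ⟨IsAlgClosure.equiv ℝ Ω ℂ⟩
  obtain ⟨c, hca⟩ : ∃ c : Ω ≃ₐ[K] Ω, ∀ z, e (c z) = (starRingEnd ℂ) (e z) := by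
    obtain ⟨c, hcdef⟩ : ∃ c : Ω ≃ₐ[ℝ] Ω, c = (e.trans Complex.conjAe).trans e.symm := ⟨_, rfl⟩
    refine ⟨AlgEquiv.ofRingEquiv (f := c.toRingEquiv) fun a => ?_, fun z => ?_⟩
    · rw [← hmap]
      exact c.commutes _
    · show e (c z) = _
      rw [hcdef]
      show e (e.symm (Complex.conjAe (e z))) = _
      rw [e.apply_symm_apply]
      rfl
  have hcc : c * c = 1 := by
    ext z
    apply e.injective
    show e (c (c z)) = e z
    rw [hca, hca, Complex.conj_conj]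
  refine ⟨e.toRingEquiv, c, hca, hcc, fun a => ?_⟩
  rw [← hmap]
  exact e.commutes _

/-- the form over `ℝ` -/
private theorem LocN_real {K : Type} [Field K] (φ : K ≃+* ℝ) {Ω : Type} [Field Ω]
    [Algebra K Ω] {n : ℕ} {e : Ω ≃+* ℂ} {c : Ω ≃ₐ[K] Ω}
    (hca : ∀ z, e (c z) = (starRingEnd ℂ) (e z))
    (hea : ∀ a : K, e (algebraMap K Ω a) = algebraMap ℝ ℂ (φ a))
    {σ : Equiv.Perm (Fin n)} (hσ : σ * σ = 1) {V : Matrix (Fin n) (Fin n) Ω} (hV : V.det ≠ 0)
    (hτ : V.map c = pM Ω σ * V) {H : Matrix (Fin n) (Fin n) K}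
    (hH : H.map (algebraMap K Ω) = Vᵀ * V) :
    cls (H.map φ) = (Finset.univ.filter fun i : Fin n => σ i < i).card • cl (-1 : ℝ) +
      (n - (Finset.univ.filter fun i : Fin n => σ i < i).card) • cl (1 : ℝ) := by
  refine real_form hσ (V := V.map e) (H := H.map φ) ?_ (fun i j => ?_) ?_
  · have h1 : (V.map e).det = e V.det := by
      have := RingHom.map_det (e : Ω →+* ℂ) V
      exact this.symm
    rw [h1]
    exact (map_ne_zero e).2 hV
  · rw [Matrix.map_apply, ← hca, Matrix.map_apply]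
    have h1 := congrFun (congrFun hτ i) j
    rw [Matrix.map_apply, pM_mul_apply] at h1
    rw [h1]
  · ext a b
    have h1 := congrArg e (congrFun (congrFun hH a) b)
    rw [Matrix.map_apply, Matrix.mul_apply, map_sum, hea] at h1
    rw [Matrix.map_apply, Matrix.map_apply, Matrix.mul_apply, h1]
    refine Finset.sum_congr rfl fun i _ => ?_
    rw [Matrix.transpose_apply, Matrix.transpose_apply, Matrix.map_apply, Matrix.map_apply,
      map_mul]

private theorem LocN_symm {K : Type} [Field K] {Ω : Type} [Field Ω] [Algebra K Ω] {n : ℕ}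
    {V : Matrix (Fin n) (Fin n) Ω} {H : Matrix (Fin n) (Fin n) K}
    (hH : H.map (algebraMap K Ω) = Vᵀ * V) : Hᵀ = H := by
  apply Matrix.map_injective (algebraMap K Ω).injective
  show Hᵀ.map (algebraMap K Ω) = H.map (algebraMap K Ω)
  rw [Matrix.transpose_map, hH, Matrix.transpose_mul, Matrix.transpose_transpose]

private theorem LocN_det {K : Type} [Field K] {Ω : Type} [Field Ω] [Algebra K Ω] {n : ℕ}
    {V : Matrix (Fin n) (Fin n) Ω} (hV : V.det ≠ 0) {H : Matrix (Fin n) (Fin n) K}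
    (hH : H.map (algebraMap K Ω) = Vᵀ * V) : H.det ≠ 0 := by
  intro h3
  have h4 := congrArg Matrix.det hH
  have h5 : (H.map (algebraMap K Ω)).det = algebraMap K Ω H.det := by
    rw [← RingHom.mapMatrix_apply, ← RingHom.map_det]
  rw [h5, h3, map_zero, Matrix.det_mul, Matrix.det_transpose] at h4
  exact mul_ne_zero hV hV h4.symm

private theorem LocN_vand {K : Type} [Field K] {Ω : Type} [Field Ω] [Algebra K Ω] {n : ℕ}
    {x : Fin n → Ω} (τ : Ω ≃ₐ[K] Ω) (σ : Equiv.Perm (Fin n)) (h : ∀ i, τ (x i) = x (σ i)) :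
    (vandermonde x).map τ = pM Ω σ * vandermonde x := by
  ext i j
  rw [pM_mul_apply, map_apply, vandermonde_apply, vandermonde_apply, map_pow, h]

private theorem LocN_hk {K : Type} [Field K] {Ω : Type} [Field Ω] [Algebra K Ω] {n : ℕ}
    {a : Fin n → K} {x : Fin n → Ω} (hx : Function.Injective x)
    (hax : AnWA.monicPoly (fun i => algebraMap K Ω (a i)) = ∏ i, (X - C (x i))) :
    (hk a).map (algebraMap K Ω) = (vandermonde x)ᵀ * vandermonde x ∧ (hk a).det ≠ 0 := by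
  have hV : (vandermonde x).det ≠ 0 := det_vandermonde_ne_zero_iff.2 hx
  have e1 : (hk a).map (algebraMap K Ω) = (vandermonde x)ᵀ * vandermonde x := by
    rw [hk_map]
    exact (vand_hk x _ hx hax).symm
  refine ⟨e1, fun h => ?_⟩
  have e2 : algebraMap K Ω (hk a).det = (vandermonde x).det ^ 2 := by
    rw [RingHom.map_det, RingHom.mapMatrix_apply, e1, det_mul, det_transpose, sq]
  rw [h, map_zero] at e2
  exact hV (pow_eq_zero_iff two_ne_zero |>.1 e2.symm)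

private theorem LocN_Js {K : Type} [Field K] (φ : ℚ →+* K) {N s : ℕ} (hs : s ≤ N) :
    ((Js N s).map φ)ᵀ = (Js N s).map φ ∧ ((Js N s).map φ).det ≠ 0 := by
  constructor
  · unfold Js
    rw [diagonal_map (map_zero φ), diagonal_transpose]
  · rw [← RingHom.mapMatrix_apply, ← RingHom.map_det, Js_det _ _ hs]
    exact (map_ne_zero φ).2 (pow_ne_zero _ (neg_ne_zero.2 one_ne_zero))

/-- Proof.  `hK = Or.inl hu`: `s = 0`, `locP hu hρ` (see rf/LocPair.lean) and `cls_Js_padic` (or `cls_Js`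
with `s = 0`).  `K ≃+* ℝ`: complex conjugation `c` (`LocPair_conj` in rf/LocPair.lean, copy), `ρ c`
has order `≤ 2`, `s` the number of `i` with `pi N (ρ c) i < i`; `four_dvd`; `real_form` for
`V.map e`, `H.map φ` (`LocPair_real`, copy) and `cls_Js` over `ℝ`: the same class over `ℝ`;
`cong_of_cls` over `ℝ`, transport to `K` by `φ.symm` as at the end of `loc_pair` in rf/LocPair.lean;
`cls_cong`. -/
theorem loc_oneN {K : Type} [Field K] [CharZero K] (hK : GoodPl K) {Ω : Type} [Field Ω]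
    [CharZero Ω] [Algebra K Ω] [IsAlgClosed Ω] [Algebra.IsAlgebraic K Ω] {N : ℕ}
    {ρ : (Ω ≃ₐ[K] Ω) →* dAlt N} (hρ : Cts ρ) :
    ∃ s : ℕ, 4 ∣ s ∧ s ≤ N ∧ ∀ (V : Matrix (Fin N) (Fin N) Ω), V.det ≠ 0 →
      (∀ τ : Ω ≃ₐ[K] Ω, V.map τ = pM Ω (pi N (ρ τ)) * V) →
      ∀ (H : Matrix (Fin N) (Fin N) K), H.map (algebraMap K Ω) = Vᵀ * V →
      cls H = cls ((Js N s).map (Rat.castHom K)) := by
  classical
  rcases hK with hu | ⟨⟨φ⟩⟩
  · refine ⟨0, dvd_zero 4, Nat.zero_le N, fun V hV hτ H hH => ?_⟩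
    rw [cls_Js_padic two_ne_zero hu (Rat.castHom K) (Nat.zero_le N) (dvd_zero 4)]
    exact locP hu hρ hV hτ hH
  · obtain ⟨e, c, hca, hcc, hea⟩ := LocN_conj φ (Ω := Ω)
    have hx : ρ c * ρ c = 1 := by rw [← map_mul, hcc, map_one]
    have hσ : pi N (ρ c) * pi N (ρ c) = 1 := by rw [← map_mul, hx, map_one]
    have h4 := four_dvd hx
    obtain ⟨s, hs⟩ : ∃ s, s = (Finset.univ.filter fun i : Fin N => pi N (ρ c) i < i).card :=
      ⟨_, rfl⟩
    have hsN : s ≤ N := by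
      rw [hs]
      refine (Finset.card_le_univ _).trans ?_
      rw [Fintype.card_fin]
    refine ⟨s, by rw [hs]; exact h4, hsN, fun V hV hτ H hH => ?_⟩
    have hHt := LocN_symm hH
    have hHd := LocN_det hV hH
    obtain ⟨hJt, hJd⟩ := LocN_Js (Rat.castHom K) hsN
    obtain ⟨J, hJ⟩ : ∃ J, J = (Js N s).map (Rat.castHom K) := ⟨_, rfl⟩
    rw [← hJ] at hJt hJd ⊢
    have r1 := LocN_real φ hca hea hσ hV (hτ c) hH
    rw [← hs] at r1
    have r2 : cls (J.map φ) = s • cl (-1 : ℝ) + (N - s) • cl (1 : ℝ) := by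
      have h5 : J.map φ = (Js N s).map ((φ : K →+* ℝ).comp (Rat.castHom K)) := by
        rw [hJ]
        ext i j
        rfl
      rw [h5]
      exact cls_Js two_ne_zero _ hsN
    have ht : ∀ {M : Matrix (Fin N) (Fin N) K}, Mᵀ = M → (M.map φ)ᵀ = M.map φ := by
      intro M hM
      rw [← Matrix.transpose_map, hM]
    have hd : ∀ {M : Matrix (Fin N) (Fin N) K}, M.det ≠ 0 → (M.map φ).det ≠ 0 := by
      intro M hM h
      have h3 := RingHom.map_det (φ : K →+* ℝ) M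
      exact hM ((map_eq_zero φ).1 (h3.trans h))
    obtain ⟨P, hP, hP'⟩ := cong_of_cls (K := ℝ) two_ne_zero (ht hHt) (hd hHd) (ht hJt) (hd hJd)
      (r1.trans r2.symm)
    refine cls_cong two_ne_zero hHt hHd ⟨P.map φ.symm, ?_, ?_⟩
    · intro h
      have h3 := RingHom.map_det (φ.symm : ℝ →+* K) P
      have h6 : φ.symm P.det = 0 := h3.trans h
      exact hP ((map_eq_zero φ.symm).1 h6)
    · have h3 := congrArg (fun M : Matrix (Fin N) (Fin N) ℝ => M.map (φ.symm : ℝ →+* K)) hP'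
      have h6 : ((Pᵀ * H.map φ * P).map (φ.symm : ℝ →+* K)) =
          (J.map φ).map (φ.symm : ℝ →+* K) := h3
      rw [Matrix.map_mul, Matrix.map_mul, Matrix.transpose_map] at h6
      have h5 : ∀ M : Matrix (Fin N) (Fin N) K, (M.map φ).map (φ.symm : ℝ →+* K) = M := by
        intro M
        ext i j
        exact φ.symm_apply_apply _
      rw [h5, h5] at h6
      exact h6

/-- Proof: as `loc_all3` in td/LocT3.lean, case `v ∈ T` (`exists_point`, `loc_oneN` for `V = bM ..`,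
`H = bM ..`, `cls_bM`). -/
theorem loc_allN {K : Type} [Field K] [CharZero K] (hK : GoodPl K) {Ω : Type} [Field Ω]
    [CharZero Ω] [Algebra K Ω] [IsAlgClosed Ω] [Algebra.IsAlgebraic K Ω] {n m : ℕ}
    {ρ : (Ω ≃ₐ[K] Ω) →* dAlt (n + m)} (hρ : Cts ρ) {σ : (Ω ≃ₐ[K] Ω) →* Equiv.Perm (Fin n)}
    (hσ : Cts σ) (ψ : (Ω ≃ₐ[K] Ω) → Equiv.Perm (Fin m))
    (hpi : ∀ τ, pi (n + m) (ρ τ) = bP (σ τ) (ψ τ)) {aF : Fin m → K} {xF : Fin m → Ω}
    (hxF : Function.Injective xF)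
    (haF : AnWA.monicPoly (fun i => algebraMap K Ω (aF i)) = ∏ i, (X - C (xF i)))
    (hF : ∀ τ i, τ (xF i) = xF (ψ τ i)) :
    ∃ s : ℕ, 4 ∣ s ∧ s ≤ n + m ∧ ∃ (a : Fin n → K) (x : Fin n → Ω), Function.Injective x ∧
      AnWA.monicPoly (fun i => algebraMap K Ω (a i)) = ∏ i, (X - C (x i)) ∧
      (∀ τ i, τ (x i) = x (σ τ i)) ∧ (hk a).det ≠ 0 ∧
      cls (hk a) + cls (hk aF) = cls ((Js (n + m) s).map (Rat.castHom K)) := by
  classical
  obtain ⟨s, h4, hsN, hs⟩ := loc_oneN hK hρ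
  obtain ⟨eF, hdF⟩ := LocN_hk hxF haF
  obtain ⟨a, x, hx, hax, hτ⟩ := exists_point hσ
  obtain ⟨e1, hd⟩ := LocN_hk hx hax
  have hV : (vandermonde x).det ≠ 0 := det_vandermonde_ne_zero_iff.2 hx
  have hVF : (vandermonde xF).det ≠ 0 := det_vandermonde_ne_zero_iff.2 hxF
  refine ⟨s, h4, hsN, a, x, hx, hax, hτ, hd, ?_⟩
  obtain ⟨V, hVdef⟩ : ∃ V, V = bM (vandermonde x) (vandermonde xF) := ⟨_, rfl⟩
  have hVd : V.det ≠ 0 := by
    rw [hVdef, bM_det]
    exact mul_ne_zero hV hVF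
  have hVτ : ∀ τ : Ω ≃ₐ[K] Ω, V.map τ = pM Ω (pi (n + m) (ρ τ)) * V := by
    intro τ
    rw [hpi, pM_bP, hVdef, bM_mul, ← LocN_vand τ (σ τ) (hτ τ), ← LocN_vand τ (ψ τ) (hF τ)]
    exact bM_map (τ : Ω →+* Ω) _ _
  have hHV : (bM (hk a) (hk aF)).map (algebraMap K Ω) = Vᵀ * V := by
    rw [hVdef, bM_map, bM_transpose, bM_mul, e1, eF]
  rw [← hs V hVd hVτ _ hHV, cls_bM two_ne_zero (hk_transpose _) hd (hk_transpose _) hdF]

end NF83
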