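import Pool.Agent.H.MP_83e36b_nt.tn.RefN
import Pool.Agent.H.MP_83e36b_nt.nf.Base
import Pool.Agent.H.MP_83e36b_nt.dc.Four

/-! The choice of the reference form. -/

set_option autoImplicit false

open Matrix SpinWA DC83 Topology

namespace NF83

/-- squares are a neighbourhood of 1.
Proof: `HasStrictDerivAt.map_nhds_eq` for `x ↦ x ^ 2` at `1` (`hasStrictDerivAt_pow`), derivative
`2 ≠ 0`. -/
theorem nhds_sq {K : Type*} [NontriviallyNormedField K] [CompleteSpace K] [CharZero K] (a : K)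
    (ha : a ≠ 0) : {y : K | ∃ t : K, t ≠ 0 ∧ y = a * t ^ 2} ∈ 𝓝 a := by
  have h1 : HasStrictDerivAt (fun t : K => a * t ^ 2) (a * (2 * 1)) 1 := by
    have h2 := (hasStrictDerivAt_pow 2 (1 : K)).const_mul a
    have e : a * (((2 : ℕ) : K) * 1 ^ (2 - 1)) = a * (2 * 1) := by norm_num
    rw [e] at h2
    exact h2
  have h3 : a * (2 * 1) ≠ 0 := mul_ne_zero ha (by norm_num)
  have h4 := h1.map_nhds_eq h3
  have h5 : a * (1 : K) ^ 2 = a := by ring
  rw [h5] at h4
  rw [← h4, Filter.mem_map]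
  have h6 : {t : K | t ≠ 0} ∈ 𝓝 (1 : K) := isOpen_ne.mem_nhds one_ne_zero
  exact Filter.mem_of_superset h6 fun t ht => ⟨t, ht, rfl⟩

/-- Proof: `wa_rat` (nf/Base.lean) for the finite set of all places (`Set.finite_univ.toFinset`),
`x v = ± 1` and `nhds_sq`; `c j ≠ 0` as `em v (c j) ≠ 0` at `v = p0 kk`. -/
theorem exists_refc {kk : Type} [Field kk] [CharZero kk] [PlSys kk] [Finite (Pk kk)]
    (s : Pk kk → ℕ) : ∃ c : ℕ → kk, (∀ j, c j ≠ 0) ∧ ∀ (v : Pk kk) (j : ℕ), ∃ t : Cp v, t ≠ 0 ∧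
      em v (c j) = (if 4 * j < s v then -1 else 1) * t ^ 2 := by
  have hx : ∀ (v : Pk kk) (j : ℕ), (if 4 * j < s v then (-1 : Cp v) else 1) ≠ 0 := by
    intro v j
    split_ifs
    · exact neg_ne_zero.2 one_ne_zero
    · exact one_ne_zero
  have h1 : ∀ j : ℕ, ∃ r : kk, ∀ v : Pk kk, ∃ t : Cp v, t ≠ 0 ∧
      em v r = (if 4 * j < s v then -1 else 1) * t ^ 2 := by
    intro j
    obtain ⟨r, hr⟩ := wa_rat (Set.finite_univ (α := Pk kk)).toFinset
      (fun v => if 4 * j < s v then (-1 : Cp v) else 1)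
      (fun v => {y : Cp v | ∃ t : Cp v, t ≠ 0 ∧ y = (if 4 * j < s v then (-1 : Cp v) else 1) *
        t ^ 2}) fun v _ => nhds_sq _ (hx v j)
    exact ⟨r, fun v => hr v (by simp)⟩
  choose c hc using h1
  refine ⟨c, fun j h0 => ?_, fun v j => hc j v⟩
  obtain ⟨t, ht, h⟩ := hc j (p0 kk)
  rw [h0, map_zero] at h
  exact mul_ne_zero (hx (p0 kk) j) (pow_ne_zero 2 ht) h.symm

/-- the class of the reference form at a place.
Proof: `Js N s = diagonal fun i => if i < s then -1 else 1`; both sides are classes of diagonal forms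
(`cls_diagonal`; `diagonal_map`), and `cl (φ (c (i / 4))) = cl (± t ^ 2) = cl (± 1)`
(`cl_mul_sq`); for `i < 4 * (N / 4)`: `4 * (i / 4) < s ↔ i < s` as `4 ∣ s`; for
`4 * (N / 4) ≤ i < N`: not `i < s`, as `s ≤ N`, `4 ∣ s`. -/
theorem cls_ref {k K : Type*} [Field k] [Field K] (h2 : (2 : K) ≠ 0) (φ : k →+* K) (ψ : ℚ →+* K)
    {N s : ℕ} (h4 : 4 ∣ s) (hs : s ≤ N) (c : ℕ → k)
    (hc : ∀ j : ℕ, ∃ t : K, t ≠ 0 ∧ φ (c j) = (if 4 * j < s then -1 else 1) * t ^ 2) :
    cls ((diagonal fun i : Fin N => rfc (N / 4) c i).map φ) = cls ((Js N s).map ψ) := by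
  have hne : ∀ i : ℕ, φ (rfc (N / 4) c i) ≠ 0 ∧
      cl (φ (rfc (N / 4) c i)) = cl (if i < s then (-1 : K) else 1) := by
    intro i
    unfold rfc
    by_cases hi : i < 4 * (N / 4)
    · rw [if_pos hi]
      obtain ⟨t, ht, h⟩ := hc (i / 4)
      have hiff : 4 * (i / 4) < s ↔ i < s := by omega
      rw [h]
      refine ⟨mul_ne_zero ?_ (pow_ne_zero 2 ht), ?_⟩
      · split_ifs
        · exact neg_ne_zero.2 one_ne_zero
        · exact one_ne_zero
      · rw [cl_mul_sq _ ht]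
        by_cases his : i < s
        · rw [if_pos his, if_pos (hiff.2 his)]
        · rw [if_neg his, if_neg fun h => his (hiff.1 h)]
    · rw [if_neg hi, map_one]
      have his : ¬ i < s := by omega
      rw [if_neg his]
      exact ⟨one_ne_zero, rfl⟩
  have e1 : ((diagonal fun i : Fin N => rfc (N / 4) c i).map φ) =
      diagonal fun i : Fin N => φ (rfc (N / 4) c i) := by
    rw [diagonal_map (map_zero φ)]
  have e2 : (Js N s).map ψ = diagonal fun i : Fin N => if (i : ℕ) < s then (-1 : K) else 1 := by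
    unfold Js
    rw [diagonal_map (map_zero ψ)]
    congr 1
    funext i
    show ψ (if (i : ℕ) < s then (-1 : ℚ) else 1) = _
    split_ifs
    · rw [map_neg, map_one]
    · rw [map_one]
  have e3 : ∀ i : Fin N, (if (i : ℕ) < s then (-1 : K) else 1) ≠ 0 := by
    intro i
    split_ifs
    · exact neg_ne_zero.2 one_ne_zero
    · exact one_ne_zero
  rw [e1, e2, cls_diagonal h2 fun i : Fin N => (hne (i : ℕ)).1, cls_diagonal h2 e3]
  exact Finset.sum_congr rfl fun i _ => (hne (i : ℕ)).2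

end NF83
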