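import Pool.Agent.H.MP_83e36b_nt.rf.GDefR
import Pool.Agent.H.MP_83e36b_nt.rf.CmpR
import Pool.Agent.H.MP_83e36b_nt.rf.LocBR
import Pool.Agent.H.MP_83e36b_nt.td.Grp
import Pool.Agent.H.MP_83e36b_nt.td.Cmp2
import Pool.Agent.H.MP_83e36b_nt.tn.ApxU
import Pool.Agent.H.MP_83e36b_nt.tn.Glo3
import Pool.Agent.H.MP_83e36b_nt.tn.RefC
import Pool.Agent.H.MP_83e36b_nt.tn.LocN

/-! Reduction of the relative Grunwald problem modulo a normal subgroup `2.A_n`, `n ≥ 4`, over a number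
field; as td/Core3.lean and rg/GrunG.lean. -/

set_option autoImplicit false

open Matrix Polynomial SpinWA DC83

namespace NF83

/-- the trace form has a nonzero determinant -/
private theorem GrunN_det {K : Type*} [Field K] {L : Type*} [Field L] (f : K →+* L) {n : ℕ}
    (a : Fin n → K) {x : Fin n → L} (hx : Function.Injective x)
    (h : AnWA.monicPoly (fun i => f (a i)) = ∏ i, (X - C (x i))) : (hk a).det ≠ 0 := by
  intro h0
  have h1 := croot_hk_det_map f a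
  rw [h0, map_zero, ← vand_hk x _ hx h, det_mul, det_transpose] at h1
  exact det_vandermonde_ne_zero_iff.2 hx (mul_self_eq_zero.1 h1.symm)

/-- the roots of the image of a polynomial -/
private theorem GrunN_poly {k K Ω₀ Ω : Type*} [Field k] [Field K] [Field Ω₀] [Field Ω]
    [Algebra k Ω₀] [Algebra K Ω] {j : k →+* K} {ι : Ω₀ →+* Ω}
    (hι : ι.comp (algebraMap k Ω₀) = (algebraMap K Ω).comp j) {n : ℕ} {a : Fin n → k}
    {z : Fin n → Ω₀} (h : AnWA.monicPoly (fun i => algebraMap k Ω₀ (a i)) = ∏ i, (X - C (z i))) :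
    AnWA.monicPoly (fun i => algebraMap K Ω (j (a i))) = ∏ i, (X - C (ι (z i))) := by
  have h1 : AnWA.monicPoly (fun i => algebraMap K Ω (j (a i))) =
      (AnWA.monicPoly (fun i => algebraMap k Ω₀ (a i))).map ι := by
    rw [← AnWA.monicPoly_map]
    exact congrArg AnWA.monicPoly (funext fun i => (RingHom.congr_fun hι (a i)).symm)
  rw [h1, h, Polynomial.map_prod]
  refine Finset.prod_congr rfl fun i _ => ?_
  rw [Polynomial.map_sub, Polynomial.map_X, Polynomial.map_C]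

theorem rel_grunN {kk : Type} [Field kk] [CharZero kk] [PlSys kk] [Finite (Pk kk)]
    (hpl : ∀ v : Pk kk, GoodPl (Cp v)) (hstar : StarAll kk) (hQE : QEx kk) {n m : ℕ} (hn : 4 ≤ n) {K : Type}
    [Field K] [Algebra kk K] {G : Type} [Group G] {A : Type} [Group A] {q : G →* A}
    (hq : Function.Surjective q) {φ : G →* dAlt (n + m)} (h : KerTwoAlt q φ)
    (γ : A →* (K ≃ₐ[kk] K)) (hA : RelGr kk γ) : RelGr kk (γ.comp q) := by
  classical
  intro S κ hκ ι hι ρ hρ hρα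
  have hal : Algebra.IsAlgebraic kk (Kb kk) := AlgebraicClosure.isAlgebraic kk
  have hchar : CharZero (Kb kk) :=
    charZero_of_injective_algebraMap (algebraMap kk (Kb kk)).injective
  have hcv : ∀ v : Pk kk, CharZero (Ok v) := fun v =>
    charZero_of_injective_algebraMap (algebraMap (Cp v) (Ok v)).injective
  have hn2 : 2 ≤ n := by omega
  have h2 : (2 : kk) ≠ 0 := two_ne_zero
  have h2v : ∀ v : Pk kk, (2 : Cp v) ≠ 0 := fun v => two_ne_zero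
  obtain ⟨T, hT⟩ : ∃ T : Finset (Pk kk), ∀ v, v ∈ T :=
    ⟨(Set.finite_univ (α := Pk kk)).toFinset, fun v =>
      (Set.finite_univ (α := Pk kk)).mem_toFinset.2 (Set.mem_univ v)⟩
  obtain ⟨π₁, π₂, hπ⟩ := exists_blocks2 (by omega : 3 ≤ n) hq h
  obtain ⟨β₀, hβc, hβκ, hβ⟩ := hA T κ hκ ι hι (fun v => q.comp (ρ v))
    (fun v => (hρ v).comp q) hρα
  -- the conjugators
  have hh : ∀ v : Pk kk, ∃ g : G, γ (q g) = 1 ∧ ∀ τ τ₀,
      (∀ x, ι v (τ₀ x) = τ (ι v x)) → β₀ τ₀ = q (g * ρ v τ * g⁻¹) := by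
    intro v
    obtain ⟨b, hb, hb'⟩ := hβ v (hT v)
    obtain ⟨g, rfl⟩ := hq b
    refine ⟨g, hb, fun τ τ₀ hτ => ?_⟩
    rw [hb' τ τ₀ hτ, map_mul, map_mul, map_inv]
    rfl
  choose e he using hh
  obtain ⟨ρ', hρ'⟩ : ∃ ρ' : ∀ v : Pk kk, (Ok v ≃ₐ[Cp v] Ok v) →* G,
      ∀ v τ, ρ' v τ = e v * ρ v τ * (e v)⁻¹ :=
    ⟨fun v => (MulAut.conj (e v)).toMonoidHom.comp (ρ v), fun v τ => rfl⟩
  have hρ'c : ∀ v, Cts (ρ' v) := by
    intro v
    refine Cts.of_two (hρ v) (hρ v) (ρ' v) fun τ h1 _ => ?_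
    rw [hρ', h1, mul_one, mul_inv_cancel]
  have hβρ : ∀ v τ τ₀, (∀ x, ι v (τ₀ x) = τ (ι v x)) → β₀ τ₀ = q (ρ' v τ) := by
    intro v τ τ₀ hτ
    rw [hρ', (he v).2 τ τ₀ hτ]
  -- the fixed algebra
  obtain ⟨aF, zF, hzF, hzFa, hFgal⟩ := exists_point (K := kk) (Ω := Kb kk) (hβc.comp π₂)
  have hres : ∀ v : Pk kk, ∃ r : (Ok v ≃ₐ[Cp v] Ok v) →* (Kb kk ≃ₐ[kk] Kb kk),
      ∀ τ x, ι v (r τ x) = τ (ι v x) := fun v => exists_res (em v) (ι v) (hι v)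
  choose rv hrv using hres
  -- the local algebras
  have hloc : ∀ v : Pk kk, ∃ s : ℕ, 4 ∣ s ∧ s ≤ n + m ∧ ∃ (a : Fin n → Cp v) (x : Fin n → Ok v),
      Function.Injective x ∧
      AnWA.monicPoly (fun i => algebraMap (Cp v) (Ok v) (a i)) = ∏ i, (X - C (x i)) ∧
      (∀ τ i, τ (x i) = x (π₁.comp (ρ' v) τ i)) ∧ (hk a).det ≠ 0 ∧
      cls (hk a) + cls (hk fun i => em v (aF i)) =
        cls ((Js (n + m) s).map (Rat.castHom (Cp v))) := by
    intro v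
    have hcv' := hcv v
    refine loc_allN (hpl v) (Ω := Ok v) ((hρ'c v).comp φ) ((hρ'c v).comp π₁)
      (fun τ => π₂ (β₀ (rv v τ))) (fun τ => ?_) (xF := fun i => ι v (zF i))
      ((ι v).injective.comp hzF) (GrunN_poly (hι v) hzFa) (fun τ i => ?_)
    · rw [hβρ v τ (rv v τ) (hrv v τ)]
      exact hπ (ρ' v τ)
    · show τ (ι v (zF i)) = ι v (zF _)
      rw [← hrv v τ (zF i), hFgal (rv v τ) i]
      rfl
  choose s hs4 hsn a x hx hax hσx hda hcl using hloc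
  have hdF : (hk aF).det ≠ 0 := GrunN_det (algebraMap kk (Kb kk)) aF hzF hzFa
  -- the reference form
  obtain ⟨c₀, hc₀, hcs⟩ := exists_refc s
  obtain ⟨V₀, x₀, hV₀, hV₀J, hx₀, h₀⟩ := refN (N := n + m) (J := (n + m) / 4) (by omega)
    (k := kk) (Ω := Kb kk) c₀ hc₀
  obtain ⟨J, hJ⟩ : ∃ J : Matrix (Fin (n + m)) (Fin (n + m)) kk,
    J = diagonal fun i : Fin (n + m) => rfc ((n + m) / 4) c₀ i := ⟨_, rfl⟩
  rw [← hJ] at hV₀J
  have hJt : Jᵀ = J := by rw [hJ, diagonal_transpose]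
  have hJd : J.det ≠ 0 := by
    rw [hJ, det_diagonal]
    refine Finset.prod_ne_zero_iff.2 fun i _ => ?_
    unfold rfc
    split_ifs
    · exact hc₀ _
    · exact one_ne_zero
  have hJv : ∀ v, cls (J.map (em v)) = cls ((Js (n + m) (s v)).map (Rat.castHom (Cp v))) := by
    intro v
    rw [hJ]
    exact cls_ref (h2v v) (em v) (Rat.castHom (Cp v)) (hs4 v) (hsn v) c₀ (hcs v)
  have hcl' : ∀ v, cls (hk (a v)) + cls (hk fun i => em v (aF i)) = cls (J.map (em v)) :=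
    fun v => (hcl v).trans (hJv v).symm
  obtain ⟨Q, hQt, hQd, hcls⟩ := hQE n m hn J (hk aF) hJt hJd (hk_transpose aF) hdF fun v =>
    ⟨hk (a v), hk_transpose _, hda v, by rw [hk_map]; exact hcl' v⟩
  -- the square root of the determinant
  obtain ⟨δ, hδ⟩ := IsAlgClosed.exists_pow_nat_eq (algebraMap kk (Kb kk) Q.det) (n := 2) two_pos
  have hδ0 : δ ≠ 0 := by
    rintro rfl
    rw [zero_pow two_ne_zero] at hδ
    exact hQd ((map_eq_zero_iff _ (algebraMap kk (Kb kk)).injective).1 hδ.symm)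
  have hlB : ∀ v : Pk kk, ∃ B : Matrix (Fin n) (Fin n) (Cp v),
      Bᵀ * Q.map (em v) * B = hk (a v) ∧ B.det ≠ 0 ∧
      algebraMap (Cp v) (Ok v) B.det * ι v δ = (vandermonde (x v)).det := by
    intro v
    have e1 : (Q.map (em v))ᵀ = Q.map (em v) := by rw [← Matrix.transpose_map, hQt]
    have e2 : (Q.map (em v)).det ≠ 0 := by
      rw [← RingHom.mapMatrix_apply, ← RingHom.map_det]
      exact (_root_.map_ne_zero _).2 hQd
    refine loc_BR (by omega) e1 e2 (hx v) (hax v)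
      (cong_of_cls (h2v v) e1 e2 (hk_transpose _) (hda v) ?_) ?_
    · have e3 := congrArg (WG.map (em v)) hcls
      rw [map_add, map_cls h2 (h2v v) (em v) hQt hQd,
        map_cls h2 (h2v v) (em v) (hk_transpose aF) hdF, hk_map,
        map_cls h2 (h2v v) (em v) hJt hJd, ← hcl' v] at e3
      exact add_right_cancel e3
    · rw [← map_pow, hδ, ← RingHom.mapMatrix_apply, ← RingHom.map_det]
      exact RingHom.congr_fun (hι v) _
  choose B hB hBd hBx using hlB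
  obtain ⟨b, C', hC', hC'd, hy⟩ := approxU hstar hn hQt hQd (fun v => π₁.comp (ρ' v))
    (fun v => ι v δ) (fun v => (_root_.map_ne_zero _).2 hδ0) a x B hx hax hσx hB hBd hBx
  obtain ⟨z, hz, hzb, hzd⟩ := rootsR hn2 hQd hC' hC'd hδ
  obtain ⟨σ, hσ⟩ := exists_gal hz hzb
  obtain ⟨ρd, hcd, hρd⟩ := glob3 (k := kk) (Ω := Kb kk) (by omega) hJt hJd hV₀ hV₀J x₀ hx₀ h₀
    hQt hQd hcls hC' hC'd hz hzb hzF hzFa σ hσ (π₂.comp β₀) hFgal
  obtain ⟨ρ₁, h1φ, h1α⟩ := exists_hom2 hn2 hq h hπ ρd β₀ (fun τ => σ τ) hρd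
  have hc₁ : Cts ρ₁ := by
    refine Cts.of_two hcd hβc ρ₁ fun τ h1 h2 => ?_
    refine lift2_inj h ?_ ?_
    · rw [h1φ, h1, map_one]
    · rw [h1α, h2, map_one]
  have hρ₁σ : ∀ τ, π₁ (ρ₁ τ) = σ τ := by
    intro τ
    have h1 := hπ (ρ₁ τ)
    rw [h1φ, hρd] at h1
    exact (bP_inj h1).1.symm
  have hρ₁z : ∀ τ i, τ (z i) = z (π₁ (ρ₁ τ) i) := by
    intro τ i
    rw [hρ₁σ, hσ]
  obtain ⟨c, hcα, hcφ, hcc⟩ := exists_c hn2 h
  have hcmp : ∀ v : Pk kk, ∃ (g : G) (χ : (Ok v ≃ₐ[Cp v] Ok v) →* ℤˣ), q g = 1 ∧ Cts χ ∧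
      ∀ τ τ₀, (∀ x, ι v (τ₀ x) = τ (ι v x)) → ρ₁ τ₀ = c (χ τ) * (g * ρ' v τ * g⁻¹) := by
    intro v
    have hcv' := hcv v
    obtain ⟨y, hyb, hyσ, hyd⟩ := hy v
    have hdet' : (vandermonde y).det ≠ - (ι v) ((vandermonde z).det) := by
      have e1 : ι v (algebraMap kk (Kb kk) C'.det) = algebraMap (Cp v) (Ok v) (em v C'.det) :=
        RingHom.congr_fun (hι v) _
      rw [hzd, map_mul, e1]
      exact hyd
    have hα' : ∀ τ τ₀, (∀ x, ι v (τ₀ x) = τ (ι v x)) → q (ρ₁ τ₀) = q (ρ' v τ) := by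
      intro τ τ₀ hτ
      rw [h1α, hβρ v τ τ₀ hτ]
    exact compareR (em v) (ι v) (hι v) hn2 h hπ hcα hcφ hcc hz hzb hρ₁z hc₁ hyb hyσ (hρ'c v)
      hα' hdet'
  choose g χ hgα hχ hg using hcmp
  obtain ⟨χ₀, hχ₀, hχ₀'⟩ := quad S ι hι χ hχ
  obtain ⟨ρ₀, hρ₀⟩ : ∃ ρ₀ : (Kb kk ≃ₐ[kk] Kb kk) →* G, ∀ τ, ρ₀ τ = c (χ₀ τ) * ρ₁ τ := by
    refine ⟨MonoidHom.mk' (fun τ => c (χ₀ τ) * ρ₁ τ) ?_, fun τ => rfl⟩
    intro τ τ'
    rw [map_mul, map_mul, map_mul, mul_assoc, ← mul_assoc (c (χ₀ τ')), hcc (χ₀ τ') (ρ₁ τ)]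
    simp only [mul_assoc]
  refine ⟨ρ₀, ?_, ?_, ?_⟩
  · refine Cts.of_two hc₁ hχ₀ ρ₀ fun τ h1 h2 => ?_
    rw [hρ₀, h1, h2, map_one, one_mul]
  · intro τ x
    rw [MonoidHom.comp_apply, hρ₀, map_mul, hcα, one_mul, h1α]
    exact hβκ τ x
  · intro v hv
    refine ⟨g v * e v, ?_, fun τ τ₀ hτ₀ => ?_⟩
    · rw [MonoidHom.comp_apply, map_mul, hgα v, one_mul]
      exact (he v).1
    · rw [hρ₀, hg v τ τ₀ hτ₀, hχ₀' v hv τ τ₀ hτ₀, ← mul_assoc, ← map_mul,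
        Int.units_mul_self, map_one, one_mul, hρ']
      group

end NF83
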