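import Pool.Agent.H.MP_83e36b_nt.tn.TDefN
import Pool.Agent.H.MP_83e36b_nt.tn.GrunN
import Pool.Agent.H.MP_83e36b_nt.re.As
import Pool.Agent.H.MP_83e36b_nt.rg.FinG

/-! The main theorem, from the two global hypotheses. -/

set_option autoImplicit false

open NumberField IsDedekindDomain

namespace NF83

open CM83 NR83 WA83 DC83

variable {k : Type} [Field k] [NumberField k]

theorem wa_dblN (hstar : ∀ T : Finset (HeightOneSpectrum (𝓞 k)), @StarAll k _ (plSys k T))
    (hQE : ∀ T : Finset (HeightOneSpectrum (𝓞 k)), @QEx k _ (plSys k T))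
    {K : Type} [Field K] [Algebra k K] [FiniteDimensional k K] [IsGalois k K]
    {G A : Type} [Group G] [Finite G] [Group A] [Finite A] (γ : A →* (K ≃ₐ[k] K))
    (hγs : Function.Surjective γ) (q : G →* A) (hq : Function.Surjective q) {n m : ℕ}
    (hn : 4 ≤ n) (φ : G →* dAlt (n + m)) (hφ : KerTwoAlt q φ) (hγ : WAFinFor γ) :
    WAFinFor (γ.comp q) := by
  refine fin_of_rel (hγs.comp hq) fun T => ?_
  letI iP : PlSys k := plSys k T
  have hgood : ∀ v : Pk k, GoodPl (Cp v) := fun v => good_compl T v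
  haveI : Finite (Pk k) := inferInstanceAs (Finite (InfinitePlace k ⊕ {v // v ∈ T}))
  exact rel_grunN hgood (hstar T) (hQE T) hn hq hφ γ (rel_of_fin hγs hγ T)

/-- Main theorem, conditional form. -/
theorem main_utower_of
    (hstar : ∀ T : Finset (HeightOneSpectrum (𝓞 k)), @StarAll k _ (plSys k T))
    (hQE : ∀ T : Finset (HeightOneSpectrum (𝓞 k)), @QEx k _ (plSys k T))
    {K : Type} [Field K] [Algebra k K]
    {G : Type} [Group G] [Finite G] (α : G →* (K ≃ₐ[k] K)) (hfix : fixF α = ⊥)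
    (hα : UTower α) : WAFinFor α := by
  rename_i hfin
  revert hfin hfix
  induction hα with
  | gal α h =>
    intro hfin hfix
    obtain ⟨h1, h2, h3⟩ := gal_of_fixR hfix
    exact wa_galR α h
  | sym γ q hq p h hγ ih =>
    intro hfin hfix
    rw [fixF_comp γ q hq] at hfix
    have hA := Finite.of_surjective q hq
    exact wa_symR γ q hq h (ih hfix)
  | alt γ q hq hN hγ ih =>
    intro hfin hfix
    rw [fixF_comp γ q hq] at hfix
    have hA := Finite.of_surjective q hq
    exact wa_altR γ q hq hN (ih hfix)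
  | dbl γ q hq n N hn hN φ hφ hγ ih =>
    intro hfin hfix
    rw [fixF_comp γ q hq] at hfix
    have hA := Finite.of_surjective q hq
    obtain ⟨h1, h2, h3⟩ := gal_of_fixR hfix
    obtain ⟨m, rfl⟩ := Nat.exists_eq_add_of_le hN
    obtain ⟨ψ, hψ⟩ := hφ.ker
    exact wa_dblN hstar hQE γ h3 q hq hn ψ hψ (ih hfix)
  | spl γ q s hs n hn χ π h hγ ih =>
    intro hfin hfix
    have hq : Function.Surjective q := fun a => ⟨s a, hs a⟩
    rw [fixF_comp γ q hq] at hfix
    have hA := Finite.of_surjective q hq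
    obtain ⟨h1, h2, h3⟩ := gal_of_fixR hfix
    obtain ⟨m, φ, hφ⟩ := h.exists_ker hn hs
    exact wa_dblN hstar hQE γ h3 q hq hn φ hφ (ih hfix)

end NF83
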