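import Pool.Agent.H.MP_83e36b_nt.rf.GlobR

/-! The lifting of a Galois representation to `2.A_n`, relative to a cocycle in the spin group. -/

set_option autoImplicit false

open Matrix SpinWA DC83

namespace NF83

private theorem GlobN_mul {k : Type} [Field k] {Ω : Type} [Field Ω] [Algebra k Ω] {m : Type*}
    [Fintype m] (τ : Ω ≃ₐ[k] Ω) (A B : Matrix m m Ω) :
    (A * B).map τ = A.map τ * B.map τ :=
  Matrix.map_mul (f := (τ : Ω →+* Ω))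

private theorem GlobN_rat {k : Type} [Field k] {Ω : Type} [Field Ω] [CharZero Ω] [Algebra k Ω]
    {m : Type*} (τ : Ω ≃ₐ[k] Ω) (A : Matrix m m ℚ) :
    (A.map (Rat.castHom Ω)).map τ = A.map (Rat.castHom Ω) := by
  ext i j
  simp only [Matrix.map_apply, eq_ratCast, map_ratCast]

/-- Proof: as `globR` in rf/GlobR.lean (copy the proof and its private lemmas with the prefix `GlobN_`),
with `r τ = (x₀ τ).map c` (a homomorphism, rational) and `D τ` in place of `pM (σ₀ τ)⁻¹`: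
`D τ * V₀.map τ = V₀` gives `(V₀⁻¹).map τ = V₀⁻¹ * D τ`, so `M.map τ = pM (σ τ) * M * D τ` for
`M = V * B⁻¹ * V₀⁻¹`; `D τ * (D τ)ᵀ = 1` by `Spn.mul_transpose`;
`M * D τ * (M.map τ)ᵀ = M * D τ * (D τ)ᵀ * Mᵀ * (pM (σ τ))ᵀ = pM (σ τ)⁻¹`. -/
theorem globN {n : ℕ} (hn : 2 ≤ n) {k : Type} [Field k] {Ω : Type} [Field Ω] [CharZero Ω]
    [Algebra k Ω] [IsAlgClosed Ω] [Algebra.IsAlgebraic k Ω] {V V₀ : Matrix (Fin n) (Fin n) Ω}
    (hV : V.det ≠ 0) (hV₀ : V₀.det ≠ 0) (σ : (Ω ≃ₐ[k] Ω) →* Equiv.Perm (Fin n))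
    (hτ : ∀ τ : Ω ≃ₐ[k] Ω, V.map τ = pM Ω (σ τ) * V)
    (x₀ : (Ω ≃ₐ[k] Ω) →* (Matrix (Ix n) (Ix n) ℚ)ˣ) (hx₀ : Cts x₀)
    (h₀ : ∀ τ : Ω ≃ₐ[k] Ω, ∃ D : Matrix (Fin n) (Fin n) Ω,
      Spn (((x₀ τ : (Matrix (Ix n) (Ix n) ℚ)ˣ) : Matrix (Ix n) (Ix n) ℚ).map (Rat.castHom Ω)) D ∧
      D * V₀.map τ = V₀)
    {B : Matrix (Fin n) (Fin n) k}
    (h : (B.map (algebraMap k Ω))ᵀ * (V₀ᵀ * V₀) * B.map (algebraMap k Ω) = Vᵀ * V)
    (hdet : V.det = V₀.det * algebraMap k Ω B.det) :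
    ∃ ρ : (Ω ≃ₐ[k] Ω) →* dAlt n, Cts ρ ∧ ∀ τ, pi n (ρ τ) = σ τ := by
  classical
  choose D hDs hDV using h₀
  obtain ⟨c, hc⟩ : ∃ c : ℚ →+* Ω, c = Rat.castHom Ω := ⟨_, rfl⟩
  have hcm : ∀ (τ : Ω ≃ₐ[k] Ω) {m : Type} (A : Matrix m m ℚ), (A.map c).map τ = A.map c := by
    intro τ m A
    rw [hc]
    exact GlobN_rat τ A
  obtain ⟨c', hc'⟩ : ∃ c' : k →+* Ω, c' = algebraMap k Ω := ⟨_, rfl⟩
  have hcm' : ∀ (τ : Ω ≃ₐ[k] Ω) {m : Type} (A : Matrix m m k), (A.map c').map τ = A.map c' := by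
    intro τ m A
    rw [hc']
    ext i j
    exact τ.commutes _
  rw [← hc'] at h hdet
  -- the inverse of B
  have hBdet : B.det ≠ 0 := by
    intro h0
    rw [h0, map_zero, mul_zero] at hdet
    exact hV hdet
  obtain ⟨Bm, hBm⟩ : ∃ Bm, Bm = B.map c' := ⟨_, rfl⟩
  obtain ⟨Bi, hBi⟩ : ∃ Bi, Bi = (B⁻¹).map c' := ⟨_, rfl⟩
  have hBB : Bm * Bi = 1 := by
    rw [hBm, hBi, ← Matrix.map_mul, Matrix.mul_nonsing_inv B (isUnit_iff_ne_zero.2 hBdet),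
      Matrix.map_one _ (map_zero c') (map_one c')]
  have hBBt : Biᵀ * Bmᵀ = 1 := by rw [← transpose_mul, hBB, transpose_one]
  have hBmdet : Bm.det = c' B.det := by
    rw [hBm]
    exact (RingHom.map_det c' B).symm
  rw [← hBm] at h
  -- the inverse of V₀
  obtain ⟨Vi, hVi⟩ : ∃ Vi, Vi = V₀⁻¹ := ⟨_, rfl⟩
  have hVV : V₀ * Vi = 1 := by
    rw [hVi]
    exact Matrix.mul_nonsing_inv V₀ (isUnit_iff_ne_zero.2 hV₀)
  have hVV' : Vi * V₀ = 1 := mul_eq_one_comm.1 hVV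
  have hVVt : Viᵀ * V₀ᵀ = 1 := by rw [← transpose_mul, hVV, transpose_one]
  obtain ⟨M, hM⟩ : ∃ M, M = V * Bi * Vi := ⟨_, rfl⟩
  have hMM : Mᵀ * M = 1 := by
    rw [hM, transpose_mul, transpose_mul]
    calc Viᵀ * (Biᵀ * Vᵀ) * (V * Bi * Vi) = Viᵀ * (Biᵀ * (Vᵀ * V) * Bi) * Vi := by
          simp only [Matrix.mul_assoc]
      _ = Viᵀ * ((Biᵀ * Bmᵀ) * (V₀ᵀ * V₀) * (Bm * Bi)) * Vi := by
          rw [← h]
          simp only [Matrix.mul_assoc]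
      _ = (Viᵀ * V₀ᵀ) * (V₀ * Vi) := by
          rw [hBBt, hBB, Matrix.mul_one, Matrix.one_mul]
          simp only [Matrix.mul_assoc]
      _ = 1 := by rw [hVVt, hVV, Matrix.mul_one]
  have hMdet : M.det = 1 := by
    have h1 : Bm.det * Bi.det = 1 := by rw [← det_mul, hBB, det_one]
    have h2 : V₀.det * Vi.det = 1 := by rw [← det_mul, hVV, det_one]
    rw [hM, det_mul, det_mul, hdet, ← hBmdet]
    calc V₀.det * Bm.det * Bi.det * Vi.det = (Bm.det * Bi.det) * (V₀.det * Vi.det) := by ring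
      _ = 1 := by rw [h1, h2, one_mul]
  obtain ⟨x, hx⟩ := Spn.exists hMM hMdet
  have hx1 := hx.mul_transpose
  have hViτ : ∀ τ : Ω ≃ₐ[k] Ω, Vi.map τ = Vi * D τ := by
    intro τ
    have h1 : V₀.map τ * Vi.map τ = 1 := by
      rw [← GlobN_mul, hVV, Matrix.map_one _ (map_zero τ) (map_one τ)]
    have h3 : V₀ * Vi.map τ = D τ := by
      calc V₀ * Vi.map τ = D τ * V₀.map τ * Vi.map τ := by rw [hDV]
        _ = D τ := by rw [Matrix.mul_assoc, h1, Matrix.mul_one]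
    calc Vi.map τ = (Vi * V₀) * Vi.map τ := by rw [hVV', Matrix.one_mul]
      _ = Vi * D τ := by rw [Matrix.mul_assoc, h3]
  have hMτ : ∀ τ : Ω ≃ₐ[k] Ω, M.map τ = pM Ω (σ τ) * M * D τ := by
    intro τ
    rw [hM, GlobN_mul, GlobN_mul, hτ, hViτ, hBi, hcm']
    simp only [Matrix.mul_assoc]
  obtain ⟨r, hr⟩ : ∃ r : (Ω ≃ₐ[k] Ω) → Matrix (Ix n) (Ix n) Ω,
      r = fun τ : Ω ≃ₐ[k] Ω => ((x₀ τ : (Matrix (Ix n) (Ix n) ℚ)ˣ) :
        Matrix (Ix n) (Ix n) ℚ).map c := ⟨_, rfl⟩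
  have hrs : ∀ τ, Spn (r τ) (D τ) := by
    intro τ
    have h1 := hDs τ
    rw [← hc] at h1
    rw [hr]
    exact h1
  have hrm : ∀ τ τ' : Ω ≃ₐ[k] Ω, r (τ * τ') = r τ * r τ' := by
    intro τ τ'
    rw [hr]
    simp only []
    rw [map_mul, Units.val_mul, Matrix.map_mul]
  have hrτ : ∀ τ τ' : Ω ≃ₐ[k] Ω, (r τ').map τ = r τ' := by
    intro τ τ'
    rw [hr]
    exact hcm τ _
  obtain ⟨g, hg⟩ : ∃ g : (Ω ≃ₐ[k] Ω) → Matrix (Ix n) (Ix n) Ω,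
      g = fun τ : Ω ≃ₐ[k] Ω => x * r τ * (x.map (fun y => τ y))ᵀ := ⟨_, rfl⟩
  have hgs : ∀ τ, Spn (g τ) (pM Ω (σ τ)⁻¹) := by
    intro τ
    have h1 := (hx.mul' (hrs τ)).mul' ((hx.map (τ : Ω →+* Ω)).transpose)
    have h2 : M * D τ * (M.map (τ : Ω →+* Ω))ᵀ = pM Ω (σ τ)⁻¹ := by
      have h3 : M.map (τ : Ω →+* Ω) = pM Ω (σ τ) * M * D τ := hMτ τ
      have h4 : D τ * (D τ)ᵀ = 1 := (hDs τ).mul_transpose.2.2.1
      rw [h3, transpose_mul, transpose_mul, pM_transpose]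
      calc M * D τ * ((D τ)ᵀ * (Mᵀ * pM Ω (σ τ)⁻¹))
          = M * (D τ * (D τ)ᵀ) * Mᵀ * pM Ω (σ τ)⁻¹ := by
            simp only [Matrix.mul_assoc]
        _ = pM Ω (σ τ)⁻¹ := by
            rw [h4, Matrix.mul_one, mul_eq_one_comm.1 hMM, Matrix.one_mul]
    rw [h2] at h1
    rw [hg]
    exact h1
  have hex := fun τ => exists_of_spn hn (hgs τ)
  rw [← hc] at hex
  choose ρ hρ1 hρ2 using hex
  have hinj : ∀ a b : dAlt n, (a.1 : Matrix (Ix n) (Ix n) ℚ).map c =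
      (b.1 : Matrix (Ix n) (Ix n) ℚ).map c → a = b := fun a b hab =>
    Subtype.ext (Units.ext (Matrix.map_injective c.injective hab))
  have hxτ : ∀ τ : Ω ≃ₐ[k] Ω, (x.map τ)ᵀ * x.map τ = 1 := by
    intro τ
    have h1 : (x.map τ)ᵀ = xᵀ.map τ := rfl
    rw [h1, ← GlobN_mul, hx1.2.1, Matrix.map_one _ (map_zero τ) (map_one τ)]
  have hgg : ∀ τ τ' : Ω ≃ₐ[k] Ω, g (τ * τ') = g τ * g τ' := by
    intro τ τ'
    have e1 : (g τ').map τ = g τ' := by rw [← hρ2, hcm]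
    have e2 : (g τ').map τ = x.map τ * r τ' * (x.map (τ * τ'))ᵀ := by
      rw [hg]
      simp only []
      rw [GlobN_mul, GlobN_mul, hrτ]
      rfl
    rw [← e1, e2, hg]
    show x * r (τ * τ') * (x.map (τ * τ'))ᵀ =
      x * r τ * (x.map τ)ᵀ * (x.map τ * r τ' * (x.map (τ * τ'))ᵀ)
    calc x * r (τ * τ') * (x.map (τ * τ'))ᵀ
        = x * r τ * 1 * r τ' * (x.map (τ * τ'))ᵀ := by
          rw [hrm, Matrix.mul_one]
          simp only [Matrix.mul_assoc]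
      _ = x * r τ * (x.map τ)ᵀ * (x.map τ * r τ' * (x.map (τ * τ'))ᵀ) := by
          rw [← hxτ τ]
          simp only [Matrix.mul_assoc]
  obtain ⟨ρ', hρ'⟩ : ∃ ρ' : (Ω ≃ₐ[k] Ω) →* dAlt n, ∀ τ, ρ' τ = ρ τ :=
    ⟨MonoidHom.mk' ρ fun τ τ' => hinj _ _ (by
      rw [hρ2, hgg, ← hρ2, ← hρ2, ← Matrix.map_mul, Subgroup.coe_mul, Units.val_mul]),
      fun τ => rfl⟩
  refine ⟨ρ', ?_, fun τ => by rw [hρ', hρ1]⟩
  obtain ⟨L₀, hL₀, hL₀'⟩ := hx₀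
  refine ⟨L₀ ⊔ IntermediateField.adjoin k (Set.range fun p : Ix n × Ix n => x p.1 p.2), ?_, ?_⟩
  · have h1 : FiniteDimensional k
        (IntermediateField.adjoin k (Set.range fun p : Ix n × Ix n => x p.1 p.2)) :=
      IntermediateField.finiteDimensional_adjoin fun y _ =>
        (Algebra.IsAlgebraic.isAlgebraic (R := k) y).isIntegral
    exact IntermediateField.finiteDimensional_sup _ _
  · intro τ hfix
    have h2 : x.map τ = x := by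
      ext a b
      apply hfix
      apply (le_sup_right : IntermediateField.adjoin k
        (Set.range fun p : Ix n × Ix n => x p.1 p.2) ≤ L₀ ⊔ _)
      exact IntermediateField.subset_adjoin k _ ⟨(a, b), rfl⟩
    have h3 : x₀ τ = 1 := hL₀' τ fun y hy => hfix y ((le_sup_left : L₀ ≤ L₀ ⊔ _) hy)
    have h4 : r τ = 1 := by
      rw [hr]
      simp only []
      rw [h3, Units.val_one, Matrix.map_one _ (map_zero c) (map_one c)]
    rw [hρ']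
    apply hinj
    show (((ρ τ).1 : (Matrix (Ix n) (Ix n) ℚ)ˣ) : Matrix (Ix n) (Ix n) ℚ).map c = _
    rw [hρ2, hg]
    simp only []
    rw [h2, h4, Matrix.mul_one, hx1.1, Subgroup.coe_one, Units.val_one,
      Matrix.map_one _ (map_zero c) (map_one c)]

end NF83
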