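import Pool.Agent.H.MP_83e36b_nt.dc.Orth

/-! The diagonal elements of the spin group with blocks of four equal signs. -/

set_option autoImplicit false

open Matrix DC83

namespace NF83

private theorem Om_hh {n : ℕ} (i : Fin n) :
    hh (Pi.single i (1 : ℚ)) = diagonal fun j => if j = i then -1 else 1 := by
  ext a b
  unfold hh
  rw [Matrix.sub_apply, Matrix.smul_apply, vecMulVec_apply, diagonal_apply, Matrix.one_apply,
    Pi.single_apply, Pi.single_apply]
  by_cases h : a = b
  · subst h
    by_cases h' : a = i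
    · simp [h']
      norm_num
    · simp [h']
  · by_cases h' : a = i
    · subst h'
      simp [h, Ne.symm h]
    · simp [h, h']

private theorem Om_list {n : ℕ} (l : List (Fin n)) (hl : l.Nodup) :
    (l.map fun i => hh (Pi.single i (1 : ℚ))).prod =
      diagonal fun j => if j ∈ l then -1 else 1 := by
  induction l with
  | nil =>
    rw [List.map_nil, List.prod_nil, ← diagonal_one]
    simp
  | cons a t ih =>
    rw [List.nodup_cons] at hl
    rw [List.map_cons, List.prod_cons, ih hl.2, Om_hh, diagonal_mul_diagonal]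
    congr 1
    funext j
    by_cases h1 : j = a
    · subst h1
      simp [hl.1]
    · simp [h1]

/-- the product of the unit vectors of a block -/
private theorem Om_block {N : ℕ} (J : ℕ) (h : 4 * (J + 1) ≤ N) :
    ∃ w : Matrix (Ix N) (Ix N) ℚ, w * w = 1 ∧
      Spn w (diagonal fun i : Fin N => if 4 * J ≤ (i : ℕ) ∧ (i : ℕ) < 4 * (J + 1) then -1 else 1) ∧
      ∀ x : Matrix (Ix N) (Ix N) ℚ, (∀ i : Fin N, 4 * J ≤ (i : ℕ) →
        Commute x (cV (Pi.single i (1 : ℚ)))) → Commute x w := by
  obtain ⟨l0, hl0⟩ : ∃ l0 : List (Fin N), l0 = (List.finRange 4).map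
    fun a : Fin 4 => (⟨4 * J + a, by omega⟩ : Fin N) := ⟨_, rfl⟩
  have hnd : l0.Nodup := by
    rw [hl0]
    refine (List.nodup_finRange 4).map fun a b hab => ?_
    have h1 := congrArg Fin.val hab
    simp only at h1
    exact Fin.ext (by omega)
  have hlen : l0.length = 4 := by
    rw [hl0, List.length_map, List.length_finRange]
  have hmem : ∀ j : Fin N, j ∈ l0 ↔ 4 * J ≤ (j : ℕ) ∧ (j : ℕ) < 4 * (J + 1) := by
    intro j
    rw [hl0, List.mem_map]
    constructor
    · rintro ⟨a, _, rfl⟩
      have := a.2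
      constructor
      · show 4 * J ≤ 4 * J + (a : ℕ)
        omega
      · show 4 * J + (a : ℕ) < 4 * (J + 1)
        omega
    · intro hj
      refine ⟨⟨(j : ℕ) - 4 * J, by omega⟩, List.mem_finRange _, Fin.ext ?_⟩
      show 4 * J + ((j : ℕ) - 4 * J) = (j : ℕ)
      omega
  obtain ⟨h1, h2⟩ := orth_prod 2 (l0.map fun i => Pi.single i (1 : ℚ))
    (by rw [List.length_map, hlen])
    (fun v hv => by
      rw [List.mem_map] at hv
      obtain ⟨i, _, rfl⟩ := hv
      rw [single_dotProduct, Pi.single_eq_same, mul_one])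
    (by
      rw [List.pairwise_map]
      refine List.Pairwise.imp ?_ hnd
      intro a b hab
      rw [single_dotProduct, Pi.single_eq_of_ne hab, mul_zero])
  have h3 : ((l0.map fun i => Pi.single i (1 : ℚ)).map hh).prod =
      diagonal fun i : Fin N => if 4 * J ≤ (i : ℕ) ∧ (i : ℕ) < 4 * (J + 1) then -1 else 1 := by
    rw [List.map_map]
    have h4 := Om_list l0 hnd
    rw [Function.comp_def, h4]
    congr 1
    funext j
    simp only [hmem]
  rw [h3] at h1
  refine ⟨_, ?_, h1, ?_⟩
  · rw [h2]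
    norm_num
  · intro x hx
    apply Commute.list_prod_right
    intro y hy
    rw [List.mem_map] at hy
    obtain ⟨v, hv, rfl⟩ := hy
    rw [List.mem_map] at hv
    obtain ⟨i, hi, rfl⟩ := hv
    exact hx i ((hmem i).1 hi).1

/-- Homomorphism from the vectors of signs to the units: the sign vector `ε` is mapped to the product of
the elements `w_j = e_{4j} e_{4j+1} e_{4j+2} e_{4j+3}`, `j < J`, `ε j = -1`.
Proof: induction on `J`.  `J = 0`: the trivial homomorphism, `Spn.one` (`diagonal_one`).
`J + 1`: let `F` be the homomorphism for `J`, `w` the product of the list of the vectors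
`cV (Pi.single i 1)`, `i = 4 J, ..., 4 J + 3`; `orth_prod` (dc/Orth.lean) with `k = 2`:
`w * w = (-1) ^ 2 = 1`, `Spn w (product of the hh)`, and this product is
`diagonal fun i => if i = 4 J ∨ ... ∨ i = 4 J + 3 then -1 else 1` (see `Glob_hh`, `Glob_list`,
`exists_omega` in dc/Glob.lean: copy).  `w` commutes with all `F ε`: by `Spn.conj` for `F ε`,
`F ε * cV u = cV (D *ᵥ u) * F ε` where `D *ᵥ Pi.single i 1 = Pi.single i 1` for `4 J ≤ i` (`D` is the
diagonal matrix of `F ε`).  `F' ε = F ε * (if ε J = 1 then 1 else w)`: multiplicative, and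
`Spn.mul'` with `diagonal_mul_diagonal`. -/
theorem exists_omN {N : ℕ} (J : ℕ) (h : 4 * J ≤ N) :
    ∃ F : (ℕ → ℤˣ) →* (Matrix (Ix N) (Ix N) ℚ)ˣ, ∀ ε : ℕ → ℤˣ,
      Spn ((F ε : (Matrix (Ix N) (Ix N) ℚ)ˣ) : Matrix (Ix N) (Ix N) ℚ)
        (diagonal fun i : Fin N => if (i : ℕ) < 4 * J then (((ε ((i : ℕ) / 4) : ℤˣ) : ℤ) : ℚ)
          else 1) ∧
      ((∀ j < J, ε j = 1) → F ε = 1) := by
  induction J with
  | zero =>
    refine ⟨1, fun ε => ⟨?_, fun _ => rfl⟩⟩
    have e : (diagonal fun i : Fin N => if (i : ℕ) < 4 * 0 then (((ε ((i : ℕ) / 4) : ℤˣ) : ℤ) : ℚ)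
        else 1) = (1 : Matrix (Fin N) (Fin N) ℚ) := by
      rw [← diagonal_one]
      congr 1
    rw [e, MonoidHom.one_apply, Units.val_one]
    exact Spn.one
  | succ J ih =>
    obtain ⟨F, hF⟩ := ih (by omega)
    obtain ⟨w, hw1, hw2, hw3⟩ := Om_block (N := N) J h
    obtain ⟨W, hW⟩ : ∃ W : (Matrix (Ix N) (Ix N) ℚ)ˣ, (W : Matrix (Ix N) (Ix N) ℚ) = w :=
      ⟨⟨w, w, hw1, hw1⟩, rfl⟩
    have hWW : W * W = 1 := Units.ext (by rw [Units.val_mul, hW, hw1, Units.val_one])
    have hcom : ∀ ε, F ε * W = W * F ε := by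
      intro ε
      refine Units.ext ?_
      rw [Units.val_mul, Units.val_mul, hW]
      refine hw3 _ fun i hi => ?_
      have h1 := (hF ε).1.conj (Pi.single i (1 : ℚ))
      have h2 : (diagonal fun i : Fin N => if (i : ℕ) < 4 * J then
          (((ε ((i : ℕ) / 4) : ℤˣ) : ℤ) : ℚ) else 1) *ᵥ Pi.single i (1 : ℚ) = Pi.single i (1 : ℚ) := by
        rw [diagonal_mulVec_single, if_neg (by omega), one_mul]
      rw [h2] at h1
      exact h1
    obtain ⟨a, ha1, ha2⟩ : ∃ a : ℤˣ → (Matrix (Ix N) (Ix N) ℚ)ˣ, a 1 = 1 ∧ a (-1) = W :=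
      ⟨fun u => if u = 1 then 1 else W, if_pos rfl, if_neg (by decide)⟩
    have hamul : ∀ u v, a (u * v) = a u * a v := by
      intro u v
      rcases Int.units_eq_one_or u with rfl | rfl
      · rw [one_mul, ha1, one_mul]
      · rcases Int.units_eq_one_or v with rfl | rfl
        · rw [mul_one, ha1, mul_one]
        · rw [neg_mul_neg, one_mul, ha1, ha2, hWW]
    have hacom : ∀ u ε, a u * F ε = F ε * a u := by
      intro u ε
      rcases Int.units_eq_one_or u with rfl | rfl
      · rw [ha1, one_mul, mul_one]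
      · rw [ha2, hcom]
    refine ⟨MonoidHom.mk' (fun ε => F ε * a (ε J)) fun ε ε' => ?_, fun ε => ⟨?_, fun hε => ?_⟩⟩
    · show F (ε * ε') * a ((ε * ε') J) = F ε * a (ε J) * (F ε' * a (ε' J))
      rw [map_mul, Pi.mul_apply, hamul]
      calc F ε * F ε' * (a (ε J) * a (ε' J)) = F ε * (F ε' * a (ε J)) * a (ε' J) := by
            simp only [mul_assoc]
        _ = F ε * (a (ε J) * F ε') * a (ε' J) := by rw [hacom]
        _ = F ε * a (ε J) * (F ε' * a (ε' J)) := by simp only [mul_assoc]
    · show Spn ((F ε * a (ε J) : (Matrix (Ix N) (Ix N) ℚ)ˣ) : Matrix (Ix N) (Ix N) ℚ) _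
      rw [Units.val_mul]
      rcases Int.units_eq_one_or (ε J) with h1 | h1
      · rw [h1, ha1, Units.val_one, mul_one]
        have e : (diagonal fun i : Fin N => if (i : ℕ) < 4 * (J + 1) then
            (((ε ((i : ℕ) / 4) : ℤˣ) : ℤ) : ℚ) else 1) =
            diagonal fun i : Fin N => if (i : ℕ) < 4 * J then
            (((ε ((i : ℕ) / 4) : ℤˣ) : ℤ) : ℚ) else 1 := by
          congr 1
          funext i
          by_cases h2 : (i : ℕ) < 4 * J
          · rw [if_pos h2, if_pos (by omega)]
          · rw [if_neg h2]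
            by_cases h3 : (i : ℕ) < 4 * (J + 1)
            · have h4 : (i : ℕ) / 4 = J := by omega
              rw [if_pos h3, h4, h1]
              norm_num
            · rw [if_neg h3]
        rw [e]
        exact (hF ε).1
      · rw [h1, ha2, hW]
        have e : (diagonal fun i : Fin N => if (i : ℕ) < 4 * (J + 1) then
            (((ε ((i : ℕ) / 4) : ℤˣ) : ℤ) : ℚ) else 1) =
            (diagonal fun i : Fin N => if (i : ℕ) < 4 * J then
            (((ε ((i : ℕ) / 4) : ℤˣ) : ℤ) : ℚ) else 1) *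
            diagonal fun i : Fin N => if 4 * J ≤ (i : ℕ) ∧ (i : ℕ) < 4 * (J + 1) then -1 else 1 := by
          rw [diagonal_mul_diagonal]
          congr 1
          funext i
          by_cases h2 : (i : ℕ) < 4 * J
          · rw [if_pos h2, if_pos (by omega), if_neg (by omega), mul_one]
          · rw [if_neg h2, one_mul]
            by_cases h3 : (i : ℕ) < 4 * (J + 1)
            · have h4 : (i : ℕ) / 4 = J := by omega
              rw [if_pos h3, h4, h1, if_pos ⟨by omega, h3⟩]
              norm_num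
            · rw [if_neg h3, if_neg (fun h5 => h3 h5.2)]
        rw [e]
        exact (hF ε).1.mul' hw2
    · show F ε * a (ε J) = 1
      rw [(hF ε).2 fun j hj => hε j (by omega), hε J (by omega), ha1, one_mul]

end NF83
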