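import Pool.Agent.H.MP_83e36b_nt.tn.Om
import Pool.Agent.H.MP_83e36b_nt.dc.Gal

/-! The reference form `diag(c_0, c_0, c_0, c_0, c_1, ...)` and its cocycle in the spin group. -/

set_option autoImplicit false

open Matrix DC83

namespace NF83

/-- the diagonal entries: blocks of four, `J` blocks, then `1` -/
def rfc {k : Type*} [Field k] (J : ℕ) (c : ℕ → k) (i : ℕ) : k := if i < 4 * J then c (i / 4) else 1

/-- Proof: `δ j` with `δ j ^ 2 = algebraMap k Ω (c j)` (`IsAlgClosed.exists_pow_nat_eq`), `δ j ≠ 0`;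
`τ (δ j) = δ j` or `- δ j`; `χ j : (Ω ≃ₐ[k] Ω) →* ℤˣ` with `τ (δ j) = χ j τ * δ j` (`MonoidHom.mk'`;
`(-1 : Ω) ≠ 1`).  `V₀ = diagonal fun i => if i < 4 J then δ (i / 4) else 1`.  `F` from `exists_omN`;
`x₀ = F.comp (τ ↦ fun j => χ j τ)`.  `D = (the diagonal matrix of exists_omN).map (Rat.castHom Ω)`
(`Spn.map`).  `Cts` : `Cts.of_fix` (dc/Gal.lean) for the family `δ j`, `j : Fin J`. -/
theorem refN {N J : ℕ} (h : 4 * J ≤ N) {k : Type} [Field k] {Ω : Type} [Field Ω] [CharZero Ω]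
    [Algebra k Ω] [IsAlgClosed Ω] [Algebra.IsAlgebraic k Ω] (c : ℕ → k) (hc : ∀ j, c j ≠ 0) :
    ∃ (V₀ : Matrix (Fin N) (Fin N) Ω) (x₀ : (Ω ≃ₐ[k] Ω) →* (Matrix (Ix N) (Ix N) ℚ)ˣ),
      V₀.det ≠ 0 ∧
      V₀ᵀ * V₀ = (diagonal fun i : Fin N => rfc J c i).map (algebraMap k Ω) ∧ Cts x₀ ∧
      ∀ τ : Ω ≃ₐ[k] Ω, ∃ D : Matrix (Fin N) (Fin N) Ω,
        Spn (((x₀ τ : (Matrix (Ix N) (Ix N) ℚ)ˣ) : Matrix (Ix N) (Ix N) ℚ).map (Rat.castHom Ω)) D ∧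
        D * V₀.map τ = V₀ := by
  classical
  choose δ hδ using fun j : ℕ =>
    IsAlgClosed.exists_pow_nat_eq (algebraMap k Ω (c j)) (n := 2) (by norm_num)
  have hδ0 : ∀ j, δ j ≠ 0 := by
    intro j h0
    have h1 := hδ j
    rw [h0, zero_pow two_ne_zero] at h1
    exact hc j ((map_eq_zero (algebraMap k Ω)).1 h1.symm)
  have hor : ∀ (τ : Ω ≃ₐ[k] Ω) (j : ℕ), τ (δ j) = δ j ∨ τ (δ j) = -δ j := by
    intro τ j
    rw [← sq_eq_sq_iff_eq_or_eq_neg, ← map_pow, hδ, AlgEquiv.commutes]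
  have key : ∀ (τ : Ω ≃ₐ[k] Ω) (j : ℕ),
      τ (δ j) = ((((if τ (δ j) = δ j then 1 else -1 : ℤˣ) : ℤˣ) : ℤ) : Ω) * δ j := by
    intro τ j
    by_cases h1 : τ (δ j) = δ j
    · rw [if_pos h1, h1]
      simp
    · rw [if_neg h1]
      rcases hor τ j with h2 | h2
      · exact absurd h2 h1
      · rw [h2]
        simp
  have hinj : ∀ u v : ℤˣ, ((u : ℤ) : Ω) = ((v : ℤ) : Ω) → u = v := by
    intro u v huv
    exact Units.ext (Int.cast_injective huv)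
  have hmul : ∀ σ τ : Ω ≃ₐ[k] Ω, (fun j : ℕ => (if (σ * τ) (δ j) = δ j then 1 else -1 : ℤˣ)) =
      (fun j : ℕ => (if σ (δ j) = δ j then 1 else -1 : ℤˣ)) *
        fun j : ℕ => (if τ (δ j) = δ j then 1 else -1 : ℤˣ) := by
    intro σ τ
    funext j
    apply hinj
    apply mul_right_cancel₀ (hδ0 j)
    rw [← key (σ * τ) j, AlgEquiv.mul_apply, Pi.mul_apply, Units.val_mul, Int.cast_mul]
    conv_lhs => rw [key τ j, map_mul, map_intCast, key σ j]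
    ring
  set χ : (Ω ≃ₐ[k] Ω) →* (ℕ → ℤˣ) :=
    MonoidHom.mk' (fun τ j => (if τ (δ j) = δ j then 1 else -1 : ℤˣ)) hmul with hχ
  have hχa : ∀ (τ : Ω ≃ₐ[k] Ω) (j : ℕ), τ (δ j) = (((χ τ j : ℤˣ) : ℤ) : Ω) * δ j := key
  have hχ1 : ∀ (τ : Ω ≃ₐ[k] Ω) (j : ℕ), τ (δ j) = δ j → χ τ j = 1 := by
    intro τ j h1
    show (if τ (δ j) = δ j then 1 else -1 : ℤˣ) = 1
    rw [if_pos h1]
  obtain ⟨F, hF⟩ := exists_omN (N := N) J h
  refine ⟨diagonal fun i : Fin N => if (i : ℕ) < 4 * J then δ ((i : ℕ) / 4) else 1, F.comp χ,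
    ?_, ?_, ?_, ?_⟩
  · rw [Matrix.det_diagonal, Finset.prod_ne_zero_iff]
    intro i _
    split_ifs
    · exact hδ0 _
    · exact one_ne_zero
  · rw [Matrix.diagonal_transpose, Matrix.diagonal_mul_diagonal,
      Matrix.diagonal_map (map_zero (algebraMap k Ω))]
    congr 1
    funext i
    unfold rfc
    split_ifs
    · rw [← sq, hδ]
    · rw [mul_one, map_one]
  · refine Cts.of_fix (F.comp χ) (fun j : Fin J => δ (j : ℕ)) fun τ hτ => ?_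
    rw [MonoidHom.comp_apply]
    exact (hF (χ τ)).2 fun j hj => hχ1 τ j (hτ ⟨j, hj⟩)
  · intro τ
    refine ⟨(diagonal fun i : Fin N => if (i : ℕ) < 4 * J then
      (((χ τ ((i : ℕ) / 4) : ℤˣ) : ℤ) : ℚ) else 1).map (Rat.castHom Ω),
      Spn.map (Rat.castHom Ω) (hF (χ τ)).1, ?_⟩
    rw [Matrix.diagonal_map (map_zero (Rat.castHom Ω)), Matrix.diagonal_map (map_zero τ),
      Matrix.diagonal_mul_diagonal]
    congr 1
    funext i
    split_ifs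
    · rw [hχa τ]
      have h1 : (((χ τ ((i : ℕ) / 4) : ℤˣ) : ℤ) : Ω) * (((χ τ ((i : ℕ) / 4) : ℤˣ) : ℤ) : Ω) = 1 := by
        rw [← Int.cast_mul, ← Units.val_mul, Int.units_mul_self, Units.val_one, Int.cast_one]
      rw [map_intCast, ← mul_assoc, h1, one_mul]
    · rw [map_one, map_one, mul_one]

end NF83
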