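import Pool.Agent.H.MP_83e36b_nt.hm.SU

/-! The two global hypotheses: weak approximation for the polynomials with the class of a given form,
and the existence of a form with given local classes. -/

set_option autoImplicit false

open Topology Matrix Polynomial SpinWA

namespace NF83

/-- weak approximation at all places for the classes of all forms in at least four variables -/
def StarAll (kk : Type) [Field kk] [PlSys kk] : Prop :=
  ∀ (m e : ℕ), 2 ≤ m → e ≤ 1 → ∀ Q : Matrix (Fin (2 * m + e)) (Fin (2 * m + e)) kk,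
    Qᵀ = Q → Q.det ≠ 0 → StarU kk m e Q.det (cls Q)

/-- the difference of a form in `n + m` and of a form in `m` variables, which is at all places the class
of a form in `n` variables, `n ≥ 4`, is the class of a form in `n` variables -/
def QEx (kk : Type) [Field kk] [PlSys kk] : Prop :=
  ∀ (n m : ℕ), 4 ≤ n → ∀ (J : Matrix (Fin (n + m)) (Fin (n + m)) kk)
    (H : Matrix (Fin m) (Fin m) kk), Jᵀ = J → J.det ≠ 0 → Hᵀ = H → H.det ≠ 0 →
    (∀ v : Pk kk, ∃ Q : Matrix (Fin n) (Fin n) (Cp v), Qᵀ = Q ∧ Q.det ≠ 0 ∧
      cls Q + cls (H.map (em v)) = cls (J.map (em v))) →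
    ∃ Q : Matrix (Fin n) (Fin n) kk, Qᵀ = Q ∧ Q.det ≠ 0 ∧ cls Q + cls H = cls J

end NF83
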